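import Pool.Agent.Work.MP_4eca41_an.Defs

/-! # Module B/AffA: segments on which `w (p, ·)` is affine (B4), general facts and isolated points

`aff_iff`: for a convex function equality of the midpoint with the chord implies equality everywhere.
`aff_sub`: clear for `a < b` (a function equal to an affine one). `aff_glue`: `w (p, ·)` equals the affine `l1` on `[a, c]` and
`l2` on `[b, d]`, which agree at two points of `[b, c]`, so `l1 = l2`.
`isol_ae` PROOF. For rationals `a < b` the set of isolated points of `P = {p | AffOn w p a b}` (the `p ∈ P` with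
`δ > 0` such that no other point of `P` has distance `< δ`) is countable (assign to `p` a rational interval
containing `p` and no other point of `P`: injective; or a Mathlib lemma on isolated points/discrete subsets of a
second countable space). A countable set times the line is null; countably many pairs `(a, b)`. -/

set_option autoImplicit false

namespace Pool.Agent.MP_4eca41.B

open Set MeasureTheory

/-- `w (p, ·)` is affine on `[a, b]` -/
def AffOn (w : ℝ × ℝ → ℝ) (p a b : ℝ) : Prop :=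
  ∀ t ∈ Icc a b, (b - a) * w (p, t) = (b - t) * w (p, a) + (t - a) * w (p, b)

/-- the good points of the Legendre side -/
structure Good (w : ℝ × ℝ → ℝ) (y : ℝ × ℝ) : Prop where
  isol : ∀ a b : ℚ, (a : ℝ) < b → AffOn w y.1 a b → ∀ δ : ℝ, 0 < δ →
    ∃ p' : ℝ, p' ≠ y.1 ∧ |p' - y.1| < δ ∧ AffOn w p' a b
  endl : ∀ b : ℚ, y.2 < b → AffOn w y.1 y.2 b → ∃ a < y.2, AffOn w y.1 a b
  endr : ∀ a : ℚ, (a : ℝ) < y.2 → AffOn w y.1 a y.2 → ∃ b > y.2, AffOn w y.1 a b

private theorem aff_conv3 {w : ℝ × ℝ → ℝ} {p : ℝ} (hw : ConvexOn ℝ univ fun t => w (p, t))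
    {x y z : ℝ} (hxy : x ≤ y) (hyz : y ≤ z) (hxz : x < z) :
    (z - x) * w (p, y) ≤ (z - y) * w (p, x) + (y - x) * w (p, z) := by
  have h0 : 0 < z - x := sub_pos.2 hxz
  have ha : 0 ≤ (z - y) / (z - x) := div_nonneg (sub_nonneg.2 hyz) h0.le
  have hb : 0 ≤ (y - x) / (z - x) := div_nonneg (sub_nonneg.2 hxy) h0.le
  have hab : (z - y) / (z - x) + (y - x) / (z - x) = 1 := by
    rw [← add_div, div_eq_one_iff_eq h0.ne']
    ring
  have h1 := hw.2 (mem_univ x) (mem_univ z) ha hb hab
  simp only [smul_eq_mul] at h1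
  have e : (z - y) / (z - x) * x + (y - x) / (z - x) * z = y := by
    field_simp
    ring
  rw [e] at h1
  have h2 := mul_le_mul_of_nonneg_left h1 h0.le
  have e2 : (z - x) * ((z - y) / (z - x) * w (p, x) + (y - x) / (z - x) * w (p, z)) =
      (z - y) * w (p, x) + (y - x) * w (p, z) := by
    field_simp
  rwa [e2] at h2

theorem aff_iff {w : ℝ × ℝ → ℝ} {p : ℝ} (hw : ConvexOn ℝ univ fun t => w (p, t)) {a b : ℝ}
    (hab : a < b) : AffOn w p a b ↔ 2 * w (p, (a + b) / 2) = w (p, a) + w (p, b) := by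
  have h0 : 0 < b - a := sub_pos.2 hab
  constructor
  · intro h
    have h1 := h ((a + b) / 2) ⟨by linarith, by linarith⟩
    have h2 : (b - a) * (2 * w (p, (a + b) / 2)) = (b - a) * (w (p, a) + w (p, b)) := by
      linear_combination 2 * h1
    exact mul_left_cancel₀ h0.ne' h2
  · intro h t ht
    obtain ⟨hat, htb⟩ := ht
    apply le_antisymm
    · exact aff_conv3 hw hat htb hab
    · rcases le_total t ((a + b) / 2) with hm | hm
      · have h1 := aff_conv3 hw hm (by linarith : (a + b) / 2 ≤ b) (by linarith : t < b)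
        nlinarith
      · have h1 := aff_conv3 hw (by linarith : a ≤ (a + b) / 2) hm (by linarith : a < t)
        nlinarith

theorem aff_sub {w : ℝ × ℝ → ℝ} {p a b a' b' : ℝ} (h : AffOn w p a b) (hab : a < b) (ha : a ≤ a')
    (hab' : a' ≤ b') (hb : b' ≤ b) : AffOn w p a' b' := by
  have h0 : 0 < b - a := sub_pos.2 hab
  intro t ht
  obtain ⟨h1, h2⟩ := ht
  have e1 := h t ⟨by linarith, by linarith⟩
  have e2 := h a' ⟨by linarith, by linarith⟩
  have e3 := h b' ⟨by linarith, by linarith⟩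
  apply mul_left_cancel₀ h0.ne'
  linear_combination (b' - a') * e1 - (b' - t) * e2 - (t - a') * e3

theorem aff_glue {w : ℝ × ℝ → ℝ} {p a b c d : ℝ} (h1 : AffOn w p a c) (h2 : AffOn w p b d)
    (hab : a ≤ b) (hbc : b < c) (hcd : c ≤ d) : AffOn w p a d := by
  have hE : ∀ t, a ≤ t → t ≤ d → (c - b) * w (p, t) = (c - t) * w (p, b) + (t - b) * w (p, c) := by
    intro t hat htd
    rcases le_total t c with htc | htc
    · have h0 : c - a ≠ 0 := by
        have : 0 < c - a := by linarith
        exact this.ne'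
      have e1 := h1 t ⟨hat, htc⟩
      have e2 := h1 b ⟨hab, hbc.le⟩
      apply mul_left_cancel₀ h0
      linear_combination (c - b) * e1 - (c - t) * e2
    · have h0 : d - b ≠ 0 := by
        have : 0 < d - b := by linarith
        exact this.ne'
      have e1 := h2 t ⟨by linarith, htd⟩
      have e2 := h2 c ⟨hbc.le, hcd⟩
      apply mul_left_cancel₀ h0
      linear_combination (c - b) * e1 - (t - b) * e2
  intro t ht
  have h0 : c - b ≠ 0 := (sub_pos.2 hbc).ne'
  have ea := hE a le_rfl (by linarith)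
  have ed := hE d (by linarith) le_rfl
  have et := hE t ht.1 ht.2
  apply mul_left_cancel₀ h0
  linear_combination (d - a) * et - (d - t) * ea - (t - a) * ed

theorem isol_ae (w : ℝ × ℝ → ℝ) : ∀ᵐ y : ℝ × ℝ, ∀ a b : ℚ, (a : ℝ) < b → AffOn w y.1 a b →
    ∀ δ : ℝ, 0 < δ → ∃ p' : ℝ, p' ≠ y.1 ∧ |p' - y.1| < δ ∧ AffOn w p' a b := by
  have key : ∀ᵐ p : ℝ, ∀ a b : ℚ, (a : ℝ) < b → AffOn w p a b →
      ∀ δ : ℝ, 0 < δ → ∃ p' : ℝ, p' ≠ p ∧ |p' - p| < δ ∧ AffOn w p' a b := by
    rw [ae_all_iff]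
    intro a
    rw [ae_all_iff]
    intro b
    have hc : ∀ n : ℕ, ({p : ℝ | AffOn w p a b ∧ ∀ p' : ℝ, p' ≠ p →
        |p' - p| < 1 / ((n : ℝ) + 1) → ¬ AffOn w p' a b}).Countable := by
      intro n
      refine MapsTo.countable_of_injOn (f := fun p : ℝ => ⌊p * ((n : ℝ) + 1)⌋) (t := univ)
        (fun _ _ => mem_univ _) ?_ (to_countable _)
      intro p hp p' hp' he
      by_contra hne
      have h1 := Int.abs_sub_lt_one_of_floor_eq_floor he
      have h2 : 0 < (n : ℝ) + 1 := by positivity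
      rw [← sub_mul, abs_mul, abs_of_pos h2, ← lt_div_iff₀ h2] at h1
      rw [abs_sub_comm] at h1
      exact hp.2 p' (Ne.symm hne) h1 hp'.1
    have hall : ∀ᵐ p : ℝ, ∀ n : ℕ, p ∉ {p : ℝ | AffOn w p a b ∧ ∀ p' : ℝ, p' ≠ p →
        |p' - p| < 1 / ((n : ℝ) + 1) → ¬ AffOn w p' a b} :=
      ae_all_iff.2 fun n => (hc n).ae_notMem volume
    filter_upwards [hall] with p hp _ hA δ hδ
    obtain ⟨n, hn⟩ := exists_nat_one_div_lt hδ
    by_contra hcon
    push Not at hcon
    exact hp n ⟨hA, fun p' hp' hd => hcon p' hp' (hd.trans hn)⟩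
  exact Measure.quasiMeasurePreserving_fst.ae key

end Pool.Agent.MP_4eca41.B
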