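import Pool.Agent.Work.MP_4eca41_an.B.AffA

/-! # Module B/AffB: end points of maximal affine segments form a null set (B4)

`endl_ae` PROOF. For rational `b` let `E_b = {y | y.2 < b, AffOn w y.1 y.2 b, ∀ a < y.2, ¬ AffOn w y.1 a b}`. For fixed `p` there
is at most one `t` with `(p, t) ∈ E_b` (if `t < t'` are two, then `a = t < t'` contradicts the condition for `t'`). Measurable:
`{y | y.2 < b ∧ AffOn w y.1 y.2 b}` is `{y.2 < b}` intersected with the closed set
`{2 * w (y.1, (y.2 + b)/2) = w (y.1, y.2) + w (y.1, b)}` (`aff_iff`), and `∀ a < y.2, ¬ AffOn w y.1 a b` is equivalent to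
`∀ n : ℕ, ¬ AffOn w y.1 (y.2 - 1/(n+1)) b` (`aff_sub`), again by `aff_iff` a countable intersection of open sets. All
vertical slices of `E_b` have at most one point, so `E_b` is null (`MeasureTheory.Measure.measure_prod_null`). The
union over rational `b` is null. `endr_ae` is symmetric. `good_ae` collects `isol_ae`, `endl_ae`, `endr_ae`. -/

set_option autoImplicit false

namespace Pool.Agent.MP_4eca41.B

open Set MeasureTheory

private theorem slice_null {E : Set (ℝ × ℝ)} (hE : MeasurableSet E)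
    (h : ∀ p t t', (p, t) ∈ E → (p, t') ∈ E → t = t') : volume E = 0 := by
  rw [Measure.volume_eq_prod, Measure.measure_prod_null hE]
  filter_upwards with p
  have : (Prod.mk p ⁻¹' E).Subsingleton := fun t ht t' ht' => h p t t' ht ht'
  exact this.measure_zero _

theorem endl_ae {w : ℝ × ℝ → ℝ} (hc : Continuous w) (hw : ∀ p, ConvexOn ℝ univ fun t => w (p, t)) :
    ∀ᵐ y : ℝ × ℝ, ∀ b : ℚ, y.2 < b → AffOn w y.1 y.2 b → ∃ a < y.2, AffOn w y.1 a b := by
  rw [ae_all_iff]
  intro b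
  set E : Set (ℝ × ℝ) := {y | y.2 < b ∧ AffOn w y.1 y.2 b ∧ ∀ a < y.2, ¬ AffOn w y.1 a b} with hE
  have heq : E = {y : ℝ × ℝ | y.2 < (b : ℝ)} ∩ ({y | 2 * w (y.1, (y.2 + b) / 2) = w (y.1, y.2) + w (y.1, b)} ∩
      ⋂ n : ℕ, {y | 2 * w (y.1, (y.2 - 1 / ((n : ℝ) + 1) + b) / 2) =
        w (y.1, y.2 - 1 / ((n : ℝ) + 1)) + w (y.1, b)}ᶜ) := by
    ext y
    constructor
    · rintro ⟨h1, h2, h3⟩
      refine ⟨h1, (aff_iff (hw y.1) h1).1 h2, ?_⟩
      rw [mem_iInter]
      intro n hn
      have hpos : (0 : ℝ) < 1 / ((n : ℝ) + 1) := by positivity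
      have h4 : y.2 - 1 / ((n : ℝ) + 1) < y.2 := by linarith
      exact h3 _ h4 ((aff_iff (hw y.1) (lt_trans h4 h1)).2 hn)
    · rintro ⟨h1, h2, h3⟩
      refine ⟨h1, (aff_iff (hw y.1) h1).2 h2, fun a ha hab => ?_⟩
      rw [mem_iInter] at h3
      obtain ⟨n, hn⟩ := exists_nat_one_div_lt (sub_pos.2 ha)
      have hpos : (0 : ℝ) < 1 / ((n : ℝ) + 1) := by positivity
      have h1' : y.2 < b := h1
      have h5 : AffOn w y.1 (y.2 - 1 / ((n : ℝ) + 1)) b :=
        aff_sub hab (lt_trans ha h1') (by linarith) (by linarith) le_rfl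
      exact h3 n ((aff_iff (hw y.1) (by linarith)).1 h5)
  have hmeas : MeasurableSet E := by
    rw [heq]
    refine (measurableSet_lt measurable_snd measurable_const).inter (MeasurableSet.inter ?_ ?_)
    · apply measurableSet_eq_fun
      · exact (continuous_const.mul (hc.comp (by fun_prop))).measurable
      · exact ((hc.comp (by fun_prop)).add (hc.comp (by fun_prop))).measurable
    · refine MeasurableSet.iInter fun n => MeasurableSet.compl ?_
      apply measurableSet_eq_fun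
      · exact (continuous_const.mul (hc.comp (by fun_prop))).measurable
      · exact ((hc.comp (by fun_prop)).add (hc.comp (by fun_prop))).measurable
  have hnull : volume E = 0 := by
    apply slice_null hmeas
    rintro p t t' ⟨h1, h2, h3⟩ ⟨h1', h2', h3'⟩
    rcases lt_trichotomy t t' with h | h | h
    · exact absurd h2 (h3' t h)
    · exact h
    · exact absurd h2' (h3 t' h)
  rw [ae_iff]
  refine measure_mono_null ?_ hnull
  intro y hy
  simp only [mem_ofPred_eq, not_forall] at hy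
  obtain ⟨h1, h2, h3⟩ := hy
  refine ⟨h1, h2, fun a ha hab => h3 ⟨a, ha, hab⟩⟩

theorem endr_ae {w : ℝ × ℝ → ℝ} (hc : Continuous w) (hw : ∀ p, ConvexOn ℝ univ fun t => w (p, t)) :
    ∀ᵐ y : ℝ × ℝ, ∀ a : ℚ, (a : ℝ) < y.2 → AffOn w y.1 a y.2 → ∃ b > y.2, AffOn w y.1 a b := by
  rw [ae_all_iff]
  intro a
  set E : Set (ℝ × ℝ) := {y | (a : ℝ) < y.2 ∧ AffOn w y.1 a y.2 ∧ ∀ b > y.2, ¬ AffOn w y.1 a b}
    with hE
  have heq : E = {y : ℝ × ℝ | (a : ℝ) < y.2} ∩
      ({y | 2 * w (y.1, ((a : ℝ) + y.2) / 2) = w (y.1, (a : ℝ)) + w (y.1, y.2)} ∩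
      ⋂ n : ℕ, {y | 2 * w (y.1, ((a : ℝ) + (y.2 + 1 / ((n : ℝ) + 1))) / 2) =
        w (y.1, (a : ℝ)) + w (y.1, y.2 + 1 / ((n : ℝ) + 1))}ᶜ) := by
    ext y
    constructor
    · rintro ⟨h1, h2, h3⟩
      refine ⟨h1, (aff_iff (hw y.1) h1).1 h2, ?_⟩
      rw [mem_iInter]
      intro n hn
      have hpos : (0 : ℝ) < 1 / ((n : ℝ) + 1) := by positivity
      have h4 : y.2 < y.2 + 1 / ((n : ℝ) + 1) := by linarith
      exact h3 _ h4 ((aff_iff (hw y.1) (lt_trans h1 h4)).2 hn)
    · rintro ⟨h1, h2, h3⟩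
      refine ⟨h1, (aff_iff (hw y.1) h1).2 h2, fun b hb hab => ?_⟩
      rw [mem_iInter] at h3
      obtain ⟨n, hn⟩ := exists_nat_one_div_lt (sub_pos.2 hb)
      have hpos : (0 : ℝ) < 1 / ((n : ℝ) + 1) := by positivity
      have h1' : (a : ℝ) < y.2 := h1
      have h5 : AffOn w y.1 a (y.2 + 1 / ((n : ℝ) + 1)) :=
        aff_sub hab (lt_trans h1' hb) le_rfl (by linarith) (by linarith)
      exact h3 n ((aff_iff (hw y.1) (by linarith)).1 h5)
  have hmeas : MeasurableSet E := by
    rw [heq]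
    refine (measurableSet_lt measurable_const measurable_snd).inter (MeasurableSet.inter ?_ ?_)
    · apply measurableSet_eq_fun
      · exact (continuous_const.mul (hc.comp (by fun_prop))).measurable
      · exact ((hc.comp (by fun_prop)).add (hc.comp (by fun_prop))).measurable
    · refine MeasurableSet.iInter fun n => MeasurableSet.compl ?_
      apply measurableSet_eq_fun
      · exact (continuous_const.mul (hc.comp (by fun_prop))).measurable
      · exact ((hc.comp (by fun_prop)).add (hc.comp (by fun_prop))).measurable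
  have hnull : volume E = 0 := by
    apply slice_null hmeas
    rintro p t t' ⟨h1, h2, h3⟩ ⟨h1', h2', h3'⟩
    rcases lt_trichotomy t t' with h | h | h
    · exact absurd h2' (h3 t' h)
    · exact h
    · exact absurd h2 (h3' t h)
  rw [ae_iff]
  refine measure_mono_null ?_ hnull
  intro y hy
  simp only [mem_ofPred_eq, not_forall] at hy
  obtain ⟨h1, h2, h3⟩ := hy
  refine ⟨h1, h2, fun b hb hab => h3 ⟨b, hb, hab⟩⟩

theorem good_ae {w : ℝ × ℝ → ℝ} (hc : Continuous w) (hw : ∀ p, ConvexOn ℝ univ fun t => w (p, t)) :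
    ∀ᵐ y : ℝ × ℝ, Good w y := by
  filter_upwards [isol_ae w, endl_ae hc hw, endr_ae hc hw] with y h1 h2 h3
  exact ⟨h1, h2, h3⟩

end Pool.Agent.MP_4eca41.B
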