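import Pool.Agent.Work.MP_4eca41_an.B.AffA

/-! # Module B/AffC: the coefficient `J.a` is affine along affine segments (B4, last part)

PROOF. `g1.endl` with a rational `b ∈ (t1, t2)` (`aff_sub`): there is `a' < t1` with `AffOn w p a' b`. `g2.endr` with a rational
`a ∈ (t1, t2)`: `b' > t2` with `AffOn w p a b'`. By `aff_glue` (twice, with `AffOn w p t1 t2`): `AffOn w p a' b'`. Take rationals
`a'' ∈ (a', t1)`, `b'' ∈ (t2, b')`: `AffOn w p a'' b''` (`aff_sub`). `g1.isol`: for every `δ` there is `p' ≠ p`, `|p' - p| < δ`, with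
`AffOn w p' a'' b''`. Let `h = p' - p`, `D t = w (p', t) - w (p, t)`. Since both `w (p', ·)`, `w (p, ·)` are affine on `[a'', b'']`:
(1) `(t2 - t1) D τ = (t2 - τ) D t1 + (τ - t1) D t2`. At `t ∈ {t1, τ, t2}` (points of `S0`) by `Exp2` with `v = (h, 0)`:
(2) `|D t - J.p (p,t) h - J.a (p,t) h^2/2| ≤ κ h^2` for `|h| ≤ δ(κ)`. Divide by `h`, `h → 0`: the relation (1) holds for `J.p`;
subtract it and divide by `h^2/2`: the claim up to an error `C κ`; `κ → 0`. -/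

set_option autoImplicit false

namespace Pool.Agent.MP_4eca41.B

open Set MeasureTheory

private theorem aff_D {w : ℝ × ℝ → ℝ} {p p' t1 t2 τ : ℝ} (h1 : AffOn w p t1 t2)
    (h2 : AffOn w p' t1 t2) (hτ1 : t1 ≤ τ) (hτ2 : τ ≤ t2) :
    (t2 - t1) * (w (p', τ) - w (p, τ)) = (t2 - τ) * (w (p', t1) - w (p, t1)) +
      (τ - t1) * (w (p', t2) - w (p, t2)) := by
  have e1 := h1 τ ⟨hτ1, hτ2⟩
  have e2 := h2 τ ⟨hτ1, hτ2⟩
  linear_combination e2 - e1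

private theorem ex_h {w : ℝ × ℝ → ℝ} {S0 : Set (ℝ × ℝ)} {J : Jets} (hE : Exp2 w S0 J) {ε : ℝ}
    (hε : 0 < ε) : ∃ δ : ℝ, 0 < δ ∧ ∀ p t : ℝ, (p, t) ∈ S0 → ∀ p' : ℝ, |p' - p| < δ →
      |w (p', t) - w (p, t) - (J.p (p, t) * (p' - p) + J.a (p, t) * (p' - p) ^ 2 / 2)| ≤
        ε * (p' - p) ^ 2 := by
  obtain ⟨δ, hδ, h⟩ := hE.ex ε hε
  refine ⟨δ, hδ, fun p t hpt p' hp' => ?_⟩
  have hs : sq ((p' - p, 0) : ℝ × ℝ) = (p' - p) ^ 2 := by simp [sq]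
  have h1 := h (p, t) hpt (p' - p, 0) (by
    rw [hs]
    exact sq_le_sq' (by linarith [(abs_lt.1 hp').1]) (abs_lt.1 hp').2.le)
  rw [hs] at h1
  have h2 : ((p, t) : ℝ × ℝ) + (p' - p, 0) = (p', t) := by
    ext <;> simp
  have h3 : J.q (p, t) (p' - p, 0) = J.p (p, t) * (p' - p) + J.a (p, t) * (p' - p) ^ 2 / 2 := by
    simp only [Jets.q]
    ring
  rw [h2, h3] at h1
  exact h1

private theorem L_bound {d1 d2 dτ P1 P2 Pτ A1 A2 Aτ h ε t1 t2 τ : ℝ} (h12 : t1 < t2)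
    (hτ1 : t1 ≤ τ) (hτ2 : τ ≤ t2)
    (e1 : |d1 - (P1 * h + A1 * h ^ 2 / 2)| ≤ ε * h ^ 2)
    (e2 : |d2 - (P2 * h + A2 * h ^ 2 / 2)| ≤ ε * h ^ 2)
    (eτ : |dτ - (Pτ * h + Aτ * h ^ 2 / 2)| ≤ ε * h ^ 2)
    (hd : (t2 - t1) * dτ = (t2 - τ) * d1 + (τ - t1) * d2) :
    |((t2 - t1) * Pτ - (t2 - τ) * P1 - (τ - t1) * P2) * h +
      ((t2 - t1) * Aτ - (t2 - τ) * A1 - (τ - t1) * A2) * h ^ 2 / 2| ≤
        2 * (t2 - t1) * ε * h ^ 2 := by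
  rw [abs_le] at e1 e2 eτ ⊢
  have a1 : 0 ≤ t2 - τ := sub_nonneg.2 hτ2
  have a2 : 0 ≤ τ - t1 := sub_nonneg.2 hτ1
  have a3 : 0 ≤ t2 - t1 := sub_nonneg.2 h12.le
  have m1 := mul_le_mul_of_nonneg_left e1.1 a1
  have m2 := mul_le_mul_of_nonneg_left e1.2 a1
  have m3 := mul_le_mul_of_nonneg_left e2.1 a2
  have m4 := mul_le_mul_of_nonneg_left e2.2 a2
  have m5 := mul_le_mul_of_nonneg_left eτ.1 a3
  have m6 := mul_le_mul_of_nonneg_left eτ.2 a3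
  constructor <;> nlinarith

theorem aff_rel {w : ℝ × ℝ → ℝ} {S0 : Set (ℝ × ℝ)} {J : Jets} (hE : Exp2 w S0 J)
    {p t1 t2 τ : ℝ} (h1 : (p, t1) ∈ S0) (g1 : Good w (p, t1)) (h2 : (p, t2) ∈ S0)
    (g2 : Good w (p, t2)) (hτ : (p, τ) ∈ S0) (h12 : t1 < t2) (hτ1 : t1 ≤ τ) (hτ2 : τ ≤ t2)
    (haff : AffOn w p t1 t2) :
    (t2 - t1) * J.a (p, τ) = (t2 - τ) * J.a (p, t1) + (τ - t1) * J.a (p, t2) := by
  obtain ⟨m1, hm1, hm1'⟩ := exists_rat_btwn h12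
  obtain ⟨m2, hm2, hm2'⟩ := exists_rat_btwn hm1'
  obtain ⟨a', ha', hA⟩ := g1.endl m2 (hm1.trans hm2)
    (aff_sub haff h12 le_rfl (hm1.trans hm2).le hm2'.le)
  obtain ⟨b', hb', hB⟩ := g2.endr m1 hm1' (aff_sub haff h12 hm1.le hm1'.le le_rfl)
  simp only at ha' hA hb' hB
  have hG : AffOn w p a' b' :=
    aff_glue hA hB (ha'.trans hm1).le hm2 (hm2'.trans hb').le
  obtain ⟨a2, ha2, ha2'⟩ := exists_rat_btwn ha'
  obtain ⟨b2, hb2, hb2'⟩ := exists_rat_btwn hb'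
  have hab' : a' < b' := ha'.trans (h12.trans hb')
  have hab2 : (a2 : ℝ) < b2 := ha2'.trans (h12.trans hb2)
  have hG2 : AffOn w p a2 b2 := aff_sub hG hab' ha2.le hab2.le hb2'.le
  have key : ∀ δ : ℝ, 0 < δ → ∃ p' : ℝ, p' ≠ p ∧ |p' - p| < δ ∧
      (t2 - t1) * (w (p', τ) - w (p, τ)) = (t2 - τ) * (w (p', t1) - w (p, t1)) +
        (τ - t1) * (w (p', t2) - w (p, t2)) := by
    intro δ hδ
    obtain ⟨p', hp', hd, hA'⟩ := g1.isol a2 b2 hab2 hG2 δ hδ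
    exact ⟨p', hp', hd, aff_D haff (aff_sub hA' hab2 ha2'.le h12.le hb2.le) hτ1 hτ2⟩
  have h0 : 0 < t2 - t1 := sub_pos.2 h12
  set LP : ℝ := (t2 - t1) * J.p (p, τ) - (t2 - τ) * J.p (p, t1) - (τ - t1) * J.p (p, t2) with hLP
  set LA : ℝ := (t2 - t1) * J.a (p, τ) - (t2 - τ) * J.a (p, t1) - (τ - t1) * J.a (p, t2) with hLA
  have key2 : ∀ ε : ℝ, 0 < ε → ∀ δ0 : ℝ, 0 < δ0 → ∃ h : ℝ, h ≠ 0 ∧ |h| < δ0 ∧
      |LP * h + LA * h ^ 2 / 2| ≤ 2 * (t2 - t1) * ε * h ^ 2 := by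
    intro ε hε δ0 hδ0
    obtain ⟨δ, hδ, hx⟩ := ex_h hE hε
    obtain ⟨p', hp', hd, hA'⟩ := key (min δ δ0) (lt_min hδ hδ0)
    have hd1 : |p' - p| < δ := hd.trans_le (min_le_left _ _)
    refine ⟨p' - p, sub_ne_zero.2 hp', hd.trans_le (min_le_right _ _), ?_⟩
    exact L_bound h12 hτ1 hτ2 (hx p t1 h1 p' hd1) (hx p t2 h2 p' hd1) (hx p τ hτ p' hd1) hA'
  have hP : LP = 0 := by
    by_contra hne
    have hpos : 0 < |LP| := abs_pos.2 hne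
    set K : ℝ := |LA| / 2 + 2 * (t2 - t1) with hK
    have hKpos : 0 < K := by
      have := abs_nonneg LA
      rw [hK]
      linarith
    obtain ⟨h, hh, hlt, hb⟩ := key2 1 one_pos (|LP| / K) (div_pos hpos hKpos)
    have hhp : 0 < |h| := abs_pos.2 hh
    have hsq : h ^ 2 = |h| ^ 2 := (sq_abs h).symm
    have e1 : |LP| * |h| ≤ |LP * h + LA * h ^ 2 / 2| + |LA| * h ^ 2 / 2 := by
      have t := abs_sub (LP * h + LA * h ^ 2 / 2) (LA * h ^ 2 / 2)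
      have t2 : LP * h + LA * h ^ 2 / 2 - LA * h ^ 2 / 2 = LP * h := by ring
      rw [t2, abs_mul] at t
      have t3 : |LA * h ^ 2 / 2| = |LA| * h ^ 2 / 2 := by
        rw [abs_div, abs_mul, abs_of_nonneg (sq_nonneg h), abs_of_pos (by norm_num : (0 : ℝ) < 2)]
      rw [t3] at t
      exact t
    have e2 : |LP| * |h| ≤ K * |h| * |h| := by
      have : K * |h| * |h| = 2 * (t2 - t1) * 1 * h ^ 2 + |LA| * h ^ 2 / 2 := by
        rw [hK, hsq]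
        ring
      rw [this]
      linarith
    have e3 : |LP| ≤ K * |h| := le_of_mul_le_mul_right e2 hhp
    have e4 : |h| * K < |LP| := (lt_div_iff₀ hKpos).1 hlt
    linarith [mul_comm K |h|]
  have hA0 : LA = 0 := by
    by_contra hne
    have hpos : 0 < |LA| := abs_pos.2 hne
    obtain ⟨h, hh, -, hb⟩ := key2 (|LA| / (8 * (t2 - t1))) (by positivity) 1 one_pos
    rw [hP, zero_mul, zero_add, abs_div, abs_mul, abs_of_nonneg (sq_nonneg h),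
      abs_of_pos (by norm_num : (0 : ℝ) < 2)] at hb
    have e1 : 2 * (t2 - t1) * (|LA| / (8 * (t2 - t1))) * h ^ 2 = |LA| * h ^ 2 / 4 := by
      field_simp
      ring
    rw [e1] at hb
    have : 0 < |LA| * h ^ 2 := mul_pos hpos (by positivity)
    linarith
  rw [hLA] at hA0
  linarith

end Pool.Agent.MP_4eca41.B
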