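import Pool.Agent.Work.MP_4eca41_an.Defs

/-! # Module B/Leg: the partial Legendre transform, general facts (B1)

PROOFS. `pl_bdd`: `f (x, t) - p x ≥ c (x^2 + t^2) - C - p x ≥ - C - p^2/(4c)`. `pl_att`: the function `x ↦ f (x, t) - p x` is
continuous (`f` is continuous: `ConvexOn.continuousOn`) and tends to infinity at both ends
(`Continuous.exists_forall_le` or a minimum on a compact interval). `pl_conc`: infimum of affine functions of `p`.
`pl_conv`: infimum over `x` of the jointly convex function `f (x, t) - p x`: for minimizers `x1` at `t1`, `x2` at `t2`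
use `s x1 + t x2`. `pu_*`: `w (p, t) + p x ≤ C (1 + t^2) - c p^2 + p x ≤ C (1 + t^2) + x^2/(4c)`.
`pu_att`: same as `pl_att`. `pu_pl`: `≤`: `PL f (p, t) + p x ≤ f (x, t)`. `≥`: a subgradient `p` of the convex
function `f (·, t)` at `x` (one variable: Mathlib `ConvexOn.exists_affine_le_of_lt`-type results, or the right derivative,
or `leftDeriv`/`rightDeriv`): `f (x', t) ≥ f (x, t) + p (x' - x)`, so `PL f (p, t) ≥ f (x, t) - p x`. -/

set_option autoImplicit false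

namespace Pool.Agent.MP_4eca41.B

open Set MeasureTheory

variable {f w w' : ℝ × ℝ → ℝ}

private theorem leg_quad {c : ℝ} (hc : 0 < c) (p x : ℝ) : 0 ≤ c * x ^ 2 - p * x + p ^ 2 / (4 * c) := by
  have h : c * x ^ 2 - p * x + p ^ 2 / (4 * c) = (2 * c * x - p) ^ 2 / (4 * c) := by
    field_simp
    ring
  rw [h]
  positivity

private theorem leg_coer {g : ℝ → ℝ} (hg : Continuous g) {c C p : ℝ} (hc : 0 < c)
    (h : ∀ x, c * x ^ 2 - p * x - C ≤ g x) : ∃ x0, ∀ x, g x0 ≤ g x := by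
  refine hg.exists_forall_le' 0 ?_
  have h1 : Filter.Tendsto (fun x : ℝ => ‖x‖) (Filter.cocompact ℝ) Filter.atTop :=
    tendsto_norm_cocompact_atTop
  filter_upwards [h1.eventually (Filter.eventually_ge_atTop (1 + (|p| + |g 0 + C|) / c))] with x hx
  rw [Real.norm_eq_abs] at hx
  have h2 := h x
  have h3 : p * x ≤ |p| * |x| := by rw [← abs_mul]; exact le_abs_self _
  have h4 : c * (1 + (|p| + |g 0 + C|) / c) = c + (|p| + |g 0 + C|) := by
    field_simp
  have h5 : c + (|p| + |g 0 + C|) ≤ c * |x| := by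
    rw [← h4]
    exact mul_le_mul_of_nonneg_left hx hc.le
  have h6 : (1 : ℝ) ≤ |x| := by
    have : 0 ≤ (|p| + |g 0 + C|) / c := by positivity
    linarith
  have h7 : x ^ 2 = |x| * |x| := by rw [← sq_abs x]; ring
  have h8 : g 0 + C ≤ |g 0 + C| := le_abs_self _
  have h9 : 0 ≤ |g 0 + C| := abs_nonneg _
  have h10 : |g 0 + C| ≤ |x| * (c * |x| - |p|) := by
    have h11 : |g 0 + C| ≤ c * |x| - |p| := by linarith
    nlinarith
  have h12 : c * x ^ 2 - p * x ≥ |x| * (c * |x| - |p|) := by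
    rw [h7]; nlinarith
  linarith

theorem pl_bdd (hg : Gr f) (y : ℝ × ℝ) : BddBelow (range fun x : ℝ => f (x, y.2) - y.1 * x) := by
  obtain ⟨c, C, hc, h⟩ := hg
  refine ⟨-C - y.1 ^ 2 / (4 * c), ?_⟩
  rintro _ ⟨x, rfl⟩
  have h1 := (h (x, y.2)).1
  have h2 := leg_quad hc y.1 x
  unfold sq at h1
  simp only at h1 ⊢
  nlinarith [sq_nonneg y.2]

theorem pl_le (hg : Gr f) (y : ℝ × ℝ) (x : ℝ) : PL f y ≤ f (x, y.2) - y.1 * x :=
  ciInf_le (pl_bdd hg y) x

theorem le_pl {y : ℝ × ℝ} {c : ℝ} (h : ∀ x : ℝ, c ≤ f (x, y.2) - y.1 * x) : c ≤ PL f y :=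
  le_ciInf h

theorem pl_att (hf : ConvexOn ℝ univ f) (hg : Gr f) (y : ℝ × ℝ) :
    ∃ x : ℝ, PL f y = f (x, y.2) - y.1 * x := by
  have hfc : Continuous f := hf.locallyLipschitz.continuous
  have hg1 : Continuous fun x : ℝ => f (x, y.2) - y.1 * x := by fun_prop
  obtain ⟨c, C, hc, h⟩ := id hg
  obtain ⟨x0, hx0⟩ := leg_coer hg1 (c := c) (C := C) (p := y.1) hc (fun x => by
    have h1 := (h (x, y.2)).1
    unfold sq at h1
    simp only at h1 ⊢
    nlinarith [sq_nonneg y.2])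
  exact ⟨x0, le_antisymm (pl_le hg y x0) (le_pl hx0)⟩

theorem pl_conc (hg : Gr f) (t : ℝ) : ConcaveOn ℝ univ fun p => PL f (p, t) := by
  refine ⟨convex_univ, ?_⟩
  intro p1 _ p2 _ a b ha hb hab
  simp only [smul_eq_mul]
  refine le_pl fun x => ?_
  have h1 := pl_le hg (p1, t) x
  have h2 := pl_le hg (p2, t) x
  simp only at h1 h2 ⊢
  have h3 := mul_le_mul_of_nonneg_left h1 ha
  have h4 := mul_le_mul_of_nonneg_left h2 hb
  have h5 : a * f (x, t) + b * f (x, t) = f (x, t) := by rw [← add_mul, hab, one_mul]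
  nlinarith

theorem pl_conv (hf : ConvexOn ℝ univ f) (hg : Gr f) (p : ℝ) :
    ConvexOn ℝ univ fun t => PL f (p, t) := by
  refine ⟨convex_univ, ?_⟩
  intro t1 _ t2 _ a b ha hb hab
  simp only [smul_eq_mul]
  obtain ⟨x1, hx1⟩ := pl_att hf hg (p, t1)
  obtain ⟨x2, hx2⟩ := pl_att hf hg (p, t2)
  rw [hx1, hx2]
  simp only
  refine le_trans (pl_le hg (p, a * t1 + b * t2) (a * x1 + b * x2)) ?_
  simp only
  have h1 := hf.2 (mem_univ ((x1, t1) : ℝ × ℝ)) (mem_univ ((x2, t2) : ℝ × ℝ)) ha hb hab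
  have h2 : a • ((x1, t1) : ℝ × ℝ) + b • ((x2, t2) : ℝ × ℝ) = (a * x1 + b * x2, a * t1 + b * t2) := by
    simp [Prod.smul_mk, smul_eq_mul]
  rw [h2] at h1
  simp only [smul_eq_mul] at h1
  linarith

theorem pu_bdd (hw : GrW w) (z : ℝ × ℝ) : BddAbove (range fun p : ℝ => w (p, z.2) + p * z.1) := by
  obtain ⟨c, C, hc, h⟩ := hw
  refine ⟨C * (1 + z.2 ^ 2) + z.1 ^ 2 / (4 * c), ?_⟩
  rintro _ ⟨p, rfl⟩
  have h1 := (h (p, z.2)).2
  have h2 := leg_quad hc z.1 p
  simp only at h1 ⊢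
  linarith

theorem le_pu (hw : GrW w) (z : ℝ × ℝ) (p : ℝ) : w (p, z.2) + p * z.1 ≤ PU w z :=
  le_ciSup (pu_bdd hw z) p

theorem pu_le {z : ℝ × ℝ} {c : ℝ} (h : ∀ p : ℝ, w (p, z.2) + p * z.1 ≤ c) : PU w z ≤ c :=
  ciSup_le h

theorem pu_mono (hw' : GrW w') (h : ∀ y, w y ≤ w' y) (z : ℝ × ℝ) : PU w z ≤ PU w' z := by
  refine pu_le fun p => ?_
  have h1 := h (p, z.2)
  have h2 := le_pu hw' z p
  linarith

theorem pu_att (hc : Continuous w) (hw : GrW w) (z : ℝ × ℝ) :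
    ∃ p : ℝ, PU w z = w (p, z.2) + p * z.1 := by
  have hg1 : Continuous fun p : ℝ => -(w (p, z.2) + p * z.1) := by fun_prop
  obtain ⟨c, C, hc0, h⟩ := id hw
  obtain ⟨p0, hp0⟩ := leg_coer hg1 (c := c) (C := C * (1 + z.2 ^ 2)) (p := z.1) hc0 (fun p => by
    have h1 := (h (p, z.2)).2
    simp only at h1 ⊢
    linarith)
  refine ⟨p0, le_antisymm (pu_le fun p => ?_) (le_pu hw z p0)⟩
  have := hp0 p
  linarith

theorem pu_pl (hf : ConvexOn ℝ univ f) (hg : Gr f) (z : ℝ × ℝ) : PU (PL f) z = f z := by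
  have hfc : Continuous f := hf.locallyLipschitz.continuous
  have hup : ∀ p : ℝ, PL f (p, z.2) + p * z.1 ≤ f z := by
    intro p
    have h1 := pl_le hg (p, z.2) z.1
    simp only at h1
    linarith
  have hbdd : BddAbove (range fun p : ℝ => PL f (p, z.2) + p * z.1) := by
    refine ⟨f z, ?_⟩
    rintro _ ⟨p, rfl⟩
    exact hup p
  refine le_antisymm (pu_le hup) (le_of_forall_lt fun a ha => ?_)
  obtain ⟨b, hab, hb⟩ := exists_between ha
  have hcx : ConvexOn ℝ univ fun x : ℝ => f (x, z.2) := by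
    refine ⟨convex_univ, ?_⟩
    intro x1 _ x2 _ s t hs ht hst
    have h1 := hf.2 (mem_univ ((x1, z.2) : ℝ × ℝ)) (mem_univ ((x2, z.2) : ℝ × ℝ)) hs ht hst
    have h2 : s • ((x1, z.2) : ℝ × ℝ) + t • ((x2, z.2) : ℝ × ℝ) = (s • x1 + t • x2, z.2) := by
      simp only [Prod.smul_mk, Prod.mk_add_mk, smul_eq_mul]
      rw [← add_mul, hst, one_mul]
    rw [h2] at h1
    exact h1
  have hcc : Continuous fun x : ℝ => f (x, z.2) := by fun_prop
  obtain ⟨c, c', hc1, hc2⟩ := hcx.exists_affine_le_of_lt_real (mem_univ z.1) hb isClosed_univ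
    (hcc.lowerSemicontinuous.lowerSemicontinuousOn _)
  have h1 : c' ≤ PL f (c, z.2) := le_pl fun x => by
    have := hc1 x (mem_univ x)
    simp only
    linarith
  have h2 : PL f (c, z.2) + c * z.1 ≤ PU (PL f) z := le_ciSup hbdd c
  linarith

end Pool.Agent.MP_4eca41.B
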