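import Pool.Agent.Work.MP_4eca41_an.B.Leg
import Pool.Agent.Work.MP_4eca41_an.T.T2

/-! # Module B/LegC: growth and continuity of the partial Legendre transform (B1)

`pl_grw` PROOF. Lower: `PL f (p, t) = inf_x (f (x,t) - p x) ≥ inf_x (c x^2 + c t^2 - C - p x) ≥ c t^2 - C - p^2/(4c)`.
Upper: test `x = p/(2C')` with `C' ≥ max C 1`, `f ≤ C' (1 + x^2 + t^2)`: `≤ C' (1 + t^2) + C' x^2 - p x = C' (1 + t^2) - p^2/(4C')`.
`pl_cont`: `t2_continuous` with `C = 0` (concave in `p`, convex in `t`), local bounds from `pl_grw`. -/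

set_option autoImplicit false

namespace Pool.Agent.MP_4eca41.B

open Set MeasureTheory

variable {f : ℝ × ℝ → ℝ}

theorem pl_grw (hg : Gr f) : GrW (PL f) := by
  have hg0 := hg
  obtain ⟨c, C, hc, h⟩ := hg
  have hD0 : (0 : ℝ) < |C| + 1 := by positivity
  have hCD : C ≤ |C| + 1 := by linarith [le_abs_self C]
  set D : ℝ := |C| + 1 with hD
  have hq : (0 : ℝ) < 1 / (4 * D) := by positivity
  have hq2 : (0 : ℝ) < 1 / (4 * c) := by positivity
  refine ⟨min c (1 / (4 * D)), D + 1 / (4 * c), lt_min hc hq, fun y => ⟨?_, ?_⟩⟩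
  · apply le_pl
    intro x
    have h1 := (h (x, y.2)).1
    unfold sq at h1
    simp only at h1
    have h2 : min c (1 / (4 * D)) * y.2 ^ 2 ≤ c * y.2 ^ 2 :=
      mul_le_mul_of_nonneg_right (min_le_left _ _) (sq_nonneg _)
    have h3 : 0 ≤ c * (x - y.1 / (2 * c)) ^ 2 := by positivity
    have h4 : c * (x - y.1 / (2 * c)) ^ 2 = c * x ^ 2 - y.1 * x + 1 / (4 * c) * y.1 ^ 2 := by
      field_simp
      ring
    have h5 : 0 ≤ D * y.1 ^ 2 := by positivity
    nlinarith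
  · have h1 := pl_le hg0 y (y.1 / (2 * D))
    have h2 := (h (y.1 / (2 * D), y.2)).2
    unfold sq at h2
    simp only at h2
    have h0 : 0 ≤ 1 + ((y.1 / (2 * D)) ^ 2 + y.2 ^ 2) := by positivity
    have h3 : C * (1 + ((y.1 / (2 * D)) ^ 2 + y.2 ^ 2)) ≤
        D * (1 + ((y.1 / (2 * D)) ^ 2 + y.2 ^ 2)) := mul_le_mul_of_nonneg_right hCD h0
    have h4 : D * (1 + ((y.1 / (2 * D)) ^ 2 + y.2 ^ 2)) - y.1 * (y.1 / (2 * D)) =
        D * (1 + y.2 ^ 2) - 1 / (4 * D) * y.1 ^ 2 := by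
      field_simp
      ring
    have h5 : min c (1 / (4 * D)) * y.1 ^ 2 ≤ 1 / (4 * D) * y.1 ^ 2 :=
      mul_le_mul_of_nonneg_right (min_le_right _ _) (sq_nonneg _)
    have h6 : 0 ≤ 1 / (4 * c) * (1 + y.2 ^ 2) := by positivity
    nlinarith

theorem pl_cont (hf : ConvexOn ℝ univ f) (hg : Gr f) : Continuous (PL f) := by
  obtain ⟨c, C, hc, h⟩ := pl_grw hg
  apply t2_continuous 0 le_rfl (PL f)
  · intro t
    right
    have := pl_conc hg t
    simpa using this
  · intro p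
    left
    have := pl_conv hf hg p
    simpa using this
  · intro R
    refine ⟨|C| * (1 + R ^ 2), fun y h1 h2 => ?_⟩
    obtain ⟨a1, a2⟩ := h y
    have b1 : y.1 ^ 2 ≤ R ^ 2 := by
      rw [← sq_abs]
      exact pow_le_pow_left₀ (abs_nonneg _) h1 2
    have b2 : y.2 ^ 2 ≤ R ^ 2 := by
      rw [← sq_abs]
      exact pow_le_pow_left₀ (abs_nonneg _) h2 2
    have c1 : C * (1 + y.1 ^ 2) ≤ |C| * (1 + R ^ 2) :=
      mul_le_mul (le_abs_self C) (by linarith) (by positivity) (abs_nonneg C)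
    have c2 : C * (1 + y.2 ^ 2) ≤ |C| * (1 + R ^ 2) :=
      mul_le_mul (le_abs_self C) (by linarith) (by positivity) (abs_nonneg C)
    have d1 : 0 ≤ c * y.1 ^ 2 := by positivity
    have d2 : 0 ≤ c * y.2 ^ 2 := by positivity
    rw [abs_le]
    constructor
    · linarith
    · linarith

end Pool.Agent.MP_4eca41.B
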