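import Pool.Agent.Work.MP_4eca41_an.Defs

/-! # Module B/Mes: measure estimate for `Phi` (B3)

PROOF. Let `a0 > 0` be a lower bound of `J.a` on `K` (if `K` is empty, `C = 1`), `δ` for `ε = a0/4` in `Exp2`, `D > δ` a bound
for the diameter of `K`. For `z = (x, t) ∈ K` the convex function `g ξ = f (x + ξ, t) - f (x, t) - J.p z * ξ` is
`≥ (a0/4) ξ^2` for `|ξ| ≤ δ` and then `g ξ ≥ (|ξ|/δ) g (±δ) ≥ (a0 δ/4) |ξ| ≥ (a0 δ/(4D)) ξ^2` for `δ ≤ |ξ| ≤ D`. So with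
`γ = a0 δ/(4 D)`: `f z' ≥ f z + J.p z (x' - x) + γ (x' - x)^2` for `z = (x,t)`, `z' = (x',t)` in `K`; adding the inequality with
`z, z'` exchanged: `2 γ (x' - x)^2 ≤ (J.p z' - J.p z)(x' - x)`, so `|x' - x| ≤ C |J.p z' - J.p z|`, `C = 1/(2γ)`.
For fixed `t` the set `{x | (x,t) ∈ K, (J.p (x,t), t) ∈ N}` is the image of `N_t` (subset of it) under a `C`-Lipschitz
map, so its (outer) measure is `≤ C volume (N_t)` (Hausdorff measure of dimension one:
`LipschitzOnWith.hausdorffMeasure_image_le`, `MeasureTheory.hausdorffMeasure_real`). `K ∩ Phi J ⁻¹' N` is measurable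
(`Phi J` continuous on the compact `K`); integrate over `t` (`MeasureTheory.Measure.prod_apply_symm`,
`MeasureTheory.Measure.volume_eq_prod`). -/

set_option autoImplicit false

namespace Pool.Agent.MP_4eca41.B

open Set MeasureTheory

private theorem q_line (J : Jets) (z : ℝ × ℝ) (ξ : ℝ) :
    J.q z (ξ, 0) = J.p z * ξ + J.a z * ξ ^ 2 / 2 := by
  unfold Jets.q
  ring

private theorem sq_line (ξ : ℝ) : sq (ξ, 0) = ξ ^ 2 := by
  unfold sq
  ring

/-- growth along horizontal lines -/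
private theorem line_grow {f : ℝ × ℝ → ℝ} (hf : ConvexOn ℝ univ f) {z : ℝ × ℝ} {p a0 δ D : ℝ}
    (ha0 : 0 < a0) (hδ : 0 < δ) (hD : δ ≤ D)
    (h : ∀ ξ : ℝ, |ξ| ≤ δ → f z + p * ξ + a0 / 4 * ξ ^ 2 ≤ f (z + (ξ, 0)))
    {ξ : ℝ} (hξ : |ξ| ≤ D) : f z + p * ξ + a0 * δ / (4 * D) * ξ ^ 2 ≤ f (z + (ξ, 0)) := by
  have hD0 : 0 < D := hδ.trans_le hD
  rcases le_total |ξ| δ with h1 | h1
  · have h2 := h ξ h1
    have h3 : a0 * δ / (4 * D) ≤ a0 / 4 := by
      rw [div_le_div_iff₀ (by positivity) (by norm_num)]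
      nlinarith
    nlinarith [sq_nonneg ξ]
  · have hx0 : 0 < |ξ| := hδ.trans_le h1
    set s : ℝ := δ / |ξ| with hs
    have hs0 : 0 < s := div_pos hδ hx0
    have hs1 : s ≤ 1 := (div_le_one hx0).2 h1
    have h2 : |s * ξ| ≤ δ := by
      rw [abs_mul, abs_of_pos hs0, hs, div_mul_cancel₀ _ hx0.ne']
    have h3 := h (s * ξ) h2
    have h4 := hf.2 (mem_univ z) (mem_univ (z + (ξ, 0))) (sub_nonneg.2 hs1) hs0.le (by ring)
    have h5 : (1 - s) • z + s • (z + ((ξ, 0) : ℝ × ℝ)) = z + (s * ξ, 0) := by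
      ext
      · simp only [Prod.fst_add, Prod.smul_fst, smul_eq_mul]
        ring
      · simp only [Prod.snd_add, Prod.smul_snd, smul_eq_mul]
        ring
    rw [h5, smul_eq_mul, smul_eq_mul] at h4
    -- s * (f (z + ξ) - f z - p ξ) ≥ a0 / 4 * s ^ 2 * ξ ^ 2
    have h6 : a0 / 4 * s * ξ ^ 2 ≤ f (z + (ξ, 0)) - f z - p * ξ := by
      have h7 : s * (a0 / 4 * s * ξ ^ 2) ≤ s * (f (z + (ξ, 0)) - f z - p * ξ) := by
        nlinarith
      exact le_of_mul_le_mul_left h7 hs0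
    have h8 : a0 * δ / (4 * D) ≤ a0 / 4 * s := by
      rw [hs]
      have h9 : δ / D ≤ δ / |ξ| := div_le_div_of_nonneg_left hδ.le hx0 hξ
      have h10 : a0 * δ / (4 * D) = a0 / 4 * (δ / D) := by
        field_simp
      rw [h10]
      exact mul_le_mul_of_nonneg_left h9 (by positivity)
    have h11 := mul_le_mul_of_nonneg_right h8 (sq_nonneg ξ)
    linarith

theorem slice_lip {f : ℝ × ℝ → ℝ} (hf : ConvexOn ℝ univ f) {K : Set (ℝ × ℝ)} {J : Jets}
    (hK : IsCompact K) (hE : Exp2 f K J) (ha : ∀ z ∈ K, 0 < J.a z) :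
    ∃ C : ℝ, 0 < C ∧ ∀ x x' t : ℝ, (x, t) ∈ K → (x', t) ∈ K →
      |x' - x| ≤ C * |J.p (x', t) - J.p (x, t)| := by
  rcases K.eq_empty_or_nonempty with rfl | hne
  · exact ⟨1, one_pos, fun x x' t hx => absurd hx (notMem_empty _)⟩
  obtain ⟨z0, hz0, hmin⟩ := hK.exists_isMinOn hne hE.ca
  have ha0 : 0 < J.a z0 := ha z0 hz0
  obtain ⟨δ, hδ, hex⟩ := hE.ex (J.a z0 / 4) (by positivity)
  obtain ⟨R, hR⟩ := hK.isBounded.exists_norm_le
  have hR0 : 0 ≤ R := (norm_nonneg z0).trans (hR z0 hz0)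
  have hD : δ ≤ δ + 2 * R := by linarith
  have hD0 : 0 < δ + 2 * R := by linarith
  have hb : ∀ z ∈ K, ∀ ξ : ℝ, |ξ| ≤ δ →
      f z + J.p z * ξ + J.a z0 / 4 * ξ ^ 2 ≤ f (z + (ξ, 0)) := by
    intro z hz ξ hξ
    have h1 := hex z hz (ξ, 0) (by
      rw [sq_line, ← sq_abs ξ]
      exact pow_le_pow_left₀ (abs_nonneg _) hξ 2)
    rw [q_line, sq_line, abs_le] at h1
    have h2 : J.a z0 ≤ J.a z := hmin hz
    nlinarith [h1.1, mul_le_mul_of_nonneg_right h2 (sq_nonneg ξ)]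
  set γ : ℝ := J.a z0 * δ / (4 * (δ + 2 * R)) with hγ
  have hγ0 : 0 < γ := by positivity
  refine ⟨1 / (2 * γ), by positivity, fun x x' t hx hx' => ?_⟩
  have hxx : |x' - x| ≤ δ + 2 * R := by
    have h1 : |x| ≤ R := (norm_fst_le (x, t)).trans (hR _ hx)
    have h2 : |x'| ≤ R := (norm_fst_le (x', t)).trans (hR _ hx')
    have h3 := abs_sub x' x
    linarith
  have h1 := line_grow hf ha0 hδ hD (hb _ hx) hxx
  have h2 := line_grow hf ha0 hδ hD (hb _ hx') (ξ := x - x') (by rwa [abs_sub_comm])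
  have e1 : ((x, t) : ℝ × ℝ) + (x' - x, 0) = (x', t) := by
    rw [Prod.mk_add_mk, add_sub_cancel, add_zero]
  have e2 : ((x', t) : ℝ × ℝ) + (x - x', 0) = (x, t) := by
    rw [Prod.mk_add_mk, add_sub_cancel, add_zero]
  rw [e1, ← hγ] at h1
  rw [e2, ← hγ] at h2
  have h3 : 2 * γ * (x' - x) ^ 2 ≤ (J.p (x', t) - J.p (x, t)) * (x' - x) := by nlinarith
  rcases eq_or_ne x' x with rfl | hne'
  · rw [sub_self, abs_zero]
    positivity
  · have h4 : 0 < |x' - x| := abs_pos.2 (sub_ne_zero.2 hne')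
    have h5 : 2 * γ * |x' - x| * |x' - x| ≤ |J.p (x', t) - J.p (x, t)| * |x' - x| := by
      calc 2 * γ * |x' - x| * |x' - x| = 2 * γ * (x' - x) ^ 2 := by rw [← sq_abs (x' - x)]; ring
        _ ≤ (J.p (x', t) - J.p (x, t)) * (x' - x) := h3
        _ ≤ |(J.p (x', t) - J.p (x, t)) * (x' - x)| := le_abs_self _
        _ = |J.p (x', t) - J.p (x, t)| * |x' - x| := abs_mul _ _
    have h6 := le_of_mul_le_mul_right h5 h4
    rw [one_div, inv_mul_eq_div, le_div_iff₀ (by positivity)]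
    linarith

private theorem slice_vol {K : Set (ℝ × ℝ)} {J : Jets} {C : ℝ} (hC : 0 < C)
    (h : ∀ x x' t : ℝ, (x, t) ∈ K → (x', t) ∈ K →
      |x' - x| ≤ C * |J.p (x', t) - J.p (x, t)|) (N : Set (ℝ × ℝ)) (t : ℝ) :
    volume ((fun x : ℝ => (x, t)) ⁻¹' (K ∩ Phi J ⁻¹' N)) ≤
      ENNReal.ofReal C * volume ((fun x : ℝ => (x, t)) ⁻¹' N) := by
  set S : Set ℝ := (fun x : ℝ => (x, t)) ⁻¹' (K ∩ Phi J ⁻¹' N) with hS
  have hSK : ∀ x ∈ S, (x, t) ∈ K := fun x hx => hx.1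
  have hinj : ∀ x ∈ S, ∀ x' ∈ S, J.p (x, t) = J.p (x', t) → x = x' := by
    intro x hx x' hx' he
    have h1 := h x x' t (hSK x hx) (hSK x' hx')
    rw [he, sub_self, abs_zero, mul_zero] at h1
    have h2 := abs_nonpos_iff.1 h1
    linarith
  rcases S.eq_empty_or_nonempty with h0 | h0
  · rw [h0, measure_empty]
    exact zero_le
  let g : ℝ → ℝ := Function.invFunOn (fun x => J.p (x, t)) S
  have hg : ∀ x ∈ S, g (J.p (x, t)) = x := by
    intro x hx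
    have h1 : ∃ a ∈ S, (fun x => J.p (x, t)) a = J.p (x, t) := ⟨x, hx, rfl⟩
    have h2 := Function.invFunOn_mem h1
    have h3 := Function.invFunOn_eq h1
    exact hinj _ h2 _ hx h3
  have hSg : S = g '' ((fun x => J.p (x, t)) '' S) := by
    ext x
    constructor
    · intro hx
      exact ⟨_, ⟨x, hx, rfl⟩, hg x hx⟩
    · rintro ⟨_, ⟨y, hy, rfl⟩, rfl⟩
      show g (J.p (y, t)) ∈ S
      rw [hg y hy]
      exact hy
  have hL : LipschitzOnWith (Real.toNNReal C) g ((fun x => J.p (x, t)) '' S) := by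
    refine LipschitzOnWith.of_dist_le_mul ?_
    rintro _ ⟨x, hx, rfl⟩ _ ⟨y, hy, rfl⟩
    show dist (g (J.p (x, t))) (g (J.p (y, t))) ≤ _
    rw [hg x hx, hg y hy, Real.coe_toNNReal _ hC.le, Real.dist_eq, Real.dist_eq]
    exact h y x t (hSK y hy) (hSK x hx)
  have h1 := hL.hausdorffMeasure_image_le (d := 1) zero_le_one
  rw [← hSg, hausdorffMeasure_real, ENNReal.rpow_one] at h1
  refine h1.trans ?_
  have h2 : ((Real.toNNReal C : NNReal) : ENNReal) = ENNReal.ofReal C := rfl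
  rw [h2]
  refine mul_le_mul_right (measure_mono ?_) _
  rintro _ ⟨x, hx, rfl⟩
  exact hx.2

theorem mes_bd {f : ℝ × ℝ → ℝ} (hf : ConvexOn ℝ univ f) {K : Set (ℝ × ℝ)} {J : Jets}
    (hK : IsCompact K) (hE : Exp2 f K J) (ha : ∀ z ∈ K, 0 < J.a z) :
    ∃ C : ℝ, 0 < C ∧ ∀ N : Set (ℝ × ℝ), MeasurableSet N → N ⊆ Phi J '' K →
      volume (K ∩ Phi J ⁻¹' N) ≤ ENNReal.ofReal C * volume N := by
  obtain ⟨C, hC, h⟩ := slice_lip hf hK hE ha
  refine ⟨C, hC, fun N hN _ => ?_⟩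
  have hc : ContinuousOn (Phi J) K := hE.cp.prodMk continuousOn_snd
  have hm : MeasurableSet (K ∩ Phi J ⁻¹' N) := by
    have h1 : Measurable (K.domRestrict (Phi J)) :=
      (continuousOn_iff_continuous_domRestrict.1 hc).measurable
    have h2 := MeasurableSet.subtype_image hK.measurableSet (h1 hN)
    have h3 : Subtype.val '' (K.domRestrict (Phi J) ⁻¹' N) = K ∩ Phi J ⁻¹' N := by
      ext z
      constructor
      · rintro ⟨⟨w, hw⟩, hw2, rfl⟩
        exact ⟨hw, hw2⟩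
      · rintro ⟨hz, hz2⟩
        exact ⟨⟨z, hz⟩, hz2, rfl⟩
    rwa [h3] at h2
  rw [Measure.volume_eq_prod, Measure.prod_apply_symm hm, Measure.prod_apply_symm hN,
    ← lintegral_const_mul' _ _ ENNReal.ofReal_ne_top]
  exact lintegral_mono fun t => slice_vol hC h N t

end Pool.Agent.MP_4eca41.B
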