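import Pool.Agent.Work.MP_4eca41_an.Defs

/-! # Module B/Net: nets of points on vertical lines (B4)

`net_closed` PROOF. Limits: if `y_n → y`, `τ_n ∈ [r/2, r]` with `(y_n.1, y_n.2 + τ_n) ∈ S0`, a subsequence `τ_n → τ`, `S0` closed.
`net_ae` PROOF. The set `E = {y ∈ S0 | ∀ n : ℕ, ¬ NetAt S0 y (1/(n+1))}` is measurable (`net_closed`). For fixed `p` let
`A = {t | (p, t) ∈ S0}` (closed). By the Lebesgue density theorem (`Besicovitch.ae_tendsto_measure_inter_div` or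
`VitaliFamily` / `IsUnifLocDoublingMeasure.ae_tendsto_measure_inter_div`) for a.e. `t ∈ A` there is `r0` with
`volume (A ∩ closedBall t r) > (7/8) volume (closedBall t r)` for `0 < r ≤ r0`; the complement of `A` in `[t - r, t + r]` has
measure `< r/4 < r/2`, so `A` meets `[t + r/2, t + r]` and `[t - r, t - r/2]`. So the slices of `E` are null;
`MeasureTheory.Measure.measure_prod_null`. -/

set_option autoImplicit false

namespace Pool.Agent.MP_4eca41.B

open Set MeasureTheory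

/-- there are points of `S0` above and below `y` at all scales `≤ r0` -/
def NetAt (S0 : Set (ℝ × ℝ)) (y : ℝ × ℝ) (r0 : ℝ) : Prop :=
  ∀ r : ℝ, 0 < r → r ≤ r0 →
    (∃ τ ∈ Icc (r / 2) r, (y.1, y.2 + τ) ∈ S0) ∧ ∃ τ ∈ Icc (r / 2) r, (y.1, y.2 - τ) ∈ S0

private theorem netSide_closed {S0 : Set (ℝ × ℝ)} (hS : IsCompact S0) (r σ : ℝ) :
    IsClosed {y : ℝ × ℝ | ∃ τ ∈ Icc (r / 2) r, (y.1, y.2 + σ * τ) ∈ S0} := by
  have h1 : IsCompact ((fun q : ℝ × (ℝ × ℝ) => (q.2.1, q.2.2 - σ * q.1)) ''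
      (Icc (r / 2) r ×ˢ S0)) :=
    (isCompact_Icc.prod hS).image (by fun_prop)
  have h2 : {y : ℝ × ℝ | ∃ τ ∈ Icc (r / 2) r, (y.1, y.2 + σ * τ) ∈ S0} =
      ((fun q : ℝ × (ℝ × ℝ) => (q.2.1, q.2.2 - σ * q.1)) '' (Icc (r / 2) r ×ˢ S0)) := by
    ext y
    constructor
    · rintro ⟨τ, hτ, hy⟩
      exact ⟨(τ, (y.1, y.2 + σ * τ)), ⟨hτ, hy⟩, by ext <;> simp⟩
    · rintro ⟨q, ⟨hq1, hq2⟩, rfl⟩
      refine ⟨q.1, hq1, ?_⟩
      have : ((q.2.1, q.2.2 - σ * q.1).1, (q.2.1, q.2.2 - σ * q.1).2 + σ * q.1) = q.2 := by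
        ext <;> simp
      simpa [this] using hq2
  rw [h2]
  exact h1.isClosed

theorem net_closed {S0 : Set (ℝ × ℝ)} (hS : IsCompact S0) (r0 : ℝ) :
    IsClosed {y | y ∈ S0 ∧ NetAt S0 y r0} := by
  have h : {y | y ∈ S0 ∧ NetAt S0 y r0} = S0 ∩ ⋂ r : ℝ, ⋂ _ : 0 < r, ⋂ _ : r ≤ r0,
      ({y : ℝ × ℝ | ∃ τ ∈ Icc (r / 2) r, (y.1, y.2 + 1 * τ) ∈ S0} ∩
        {y : ℝ × ℝ | ∃ τ ∈ Icc (r / 2) r, (y.1, y.2 + (-1) * τ) ∈ S0}) := by
    ext y
    simp only [mem_inter_iff, mem_iInter, mem_ofPred_eq, NetAt, one_mul, neg_one_mul,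
      ← sub_eq_add_neg]
  rw [h]
  refine hS.isClosed.inter (isClosed_iInter fun r => isClosed_iInter fun _ => isClosed_iInter fun _ =>
    (netSide_closed hS r 1).inter (netSide_closed hS r (-1)))

private theorem dens_step {A : Set ℝ} (hA : MeasurableSet A) :
    ∀ᵐ t : ℝ, t ∈ A → ∃ δ : ℝ, 0 < δ ∧ ∀ r : ℝ, 0 < r → r ≤ δ →
      (∃ τ ∈ Icc (r / 2) r, t + τ ∈ A) ∧ ∃ τ ∈ Icc (r / 2) r, t - τ ∈ A := by
  have h0 := Besicovitch.ae_tendsto_measure_inter_div (volume : Measure ℝ) A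
  rw [ae_restrict_iff' hA] at h0
  filter_upwards [h0] with t ht htA
  have h1 := ht htA
  have h2 : ∀ᶠ r in nhdsWithin (0 : ℝ) (Ioi 0),
      ENNReal.ofReal (7 / 8) < volume (A ∩ Metric.closedBall t r) / volume (Metric.closedBall t r) := by
    apply h1.eventually_const_lt
    rw [← ENNReal.ofReal_one]
    exact (ENNReal.ofReal_lt_ofReal_iff (by norm_num)).2 (by norm_num)
  rw [eventually_nhdsWithin_iff, Metric.eventually_nhds_iff] at h2
  obtain ⟨δ, hδ, h3⟩ := h2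
  have key : ∀ r : ℝ, 0 < r → r ≤ δ / 2 → ∀ a : ℝ,
      A ∩ Metric.closedBall t r ⊆ Icc a (a + 3 * r / 2) → False := by
    intro r hr hrδ a hsub
    have h4 := h3 (y := r) (by rw [Real.dist_eq, sub_zero, abs_of_pos hr]; linarith) hr
    have h5 : volume (A ∩ Metric.closedBall t r) ≤ ENNReal.ofReal (3 * r / 2) := by
      refine (measure_mono hsub).trans ?_
      rw [Real.volume_Icc]
      exact ENNReal.ofReal_le_ofReal (by linarith)
    rw [Real.volume_closedBall] at h4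
    have h6 : volume (A ∩ Metric.closedBall t r) / ENNReal.ofReal (2 * r) ≤ ENNReal.ofReal (3 / 4) := by
      refine (ENNReal.div_le_div_right h5 _).trans ?_
      rw [← ENNReal.ofReal_div_of_pos (by linarith)]
      apply ENNReal.ofReal_le_ofReal
      rw [div_le_iff₀ (by linarith)]
      linarith
    have h7 := lt_of_lt_of_le h4 h6
    rw [ENNReal.ofReal_lt_ofReal_iff (by norm_num)] at h7
    norm_num at h7
  refine ⟨δ / 2, by linarith, fun r hr hrδ => ⟨?_, ?_⟩⟩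
  · by_contra hcon
    push Not at hcon
    apply key r hr hrδ (t - r)
    rintro s ⟨hs, hs2⟩
    rw [Metric.mem_closedBall, Real.dist_eq, abs_le] at hs2
    refine ⟨by linarith, ?_⟩
    by_contra hs3
    push Not at hs3
    apply hcon (s - t) ⟨by linarith, by linarith⟩
    simpa using hs
  · by_contra hcon
    push Not at hcon
    apply key r hr hrδ (t - r / 2)
    rintro s ⟨hs, hs2⟩
    rw [Metric.mem_closedBall, Real.dist_eq, abs_le] at hs2
    refine ⟨?_, by linarith⟩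
    by_contra hs3
    push Not at hs3
    apply hcon (t - s) ⟨by linarith, by linarith⟩
    simpa using hs

theorem net_ae {S0 : Set (ℝ × ℝ)} (hS : IsCompact S0) :
    ∀ᵐ y : ℝ × ℝ, y ∈ S0 → ∃ n : ℕ, NetAt S0 y (1 / ((n : ℝ) + 1)) := by
  set E : Set (ℝ × ℝ) := S0 \ ⋃ n : ℕ, {y | y ∈ S0 ∧ NetAt S0 y (1 / ((n : ℝ) + 1))} with hE
  have hmeas : MeasurableSet E :=
    hS.isClosed.measurableSet.diff (MeasurableSet.iUnion fun n => (net_closed hS _).measurableSet)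
  have hnull : volume E = 0 := by
    rw [Measure.volume_eq_prod, Measure.measure_prod_null hmeas]
    filter_upwards with p
    have hA : MeasurableSet {t : ℝ | (p, t) ∈ S0} :=
      (hS.isClosed.preimage (by fun_prop : Continuous fun t : ℝ => (p, t))).measurableSet
    have h1 := dens_step hA
    rw [ae_iff] at h1
    refine measure_mono_null ?_ h1
    intro t ht hcon
    obtain ⟨ht1, ht2⟩ := ht
    apply ht2
    obtain ⟨δ, hδ, h2⟩ := hcon ht1
    obtain ⟨n, hn⟩ := exists_nat_one_div_lt hδ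
    rw [mem_iUnion]
    exact ⟨n, ht1, fun r hr hr2 => h2 r hr (by linarith)⟩
  rw [ae_iff]
  refine measure_mono_null ?_ hnull
  intro y hy
  have hy' : ¬ (y ∈ S0 → ∃ n : ℕ, NetAt S0 y (1 / ((n : ℝ) + 1))) := hy
  push Not at hy'
  refine ⟨hy'.1, ?_⟩
  rw [mem_iUnion]
  rintro ⟨n, hn⟩
  exact hy'.2 n hn.2

end Pool.Agent.MP_4eca41.B
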