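import Pool.Agent.Work.MP_4eca41_an.B.AffB
import Pool.Agent.Work.MP_4eca41_an.B.Net

/-! # Module B/Sel: the compact set of good points (B4)

PROOF. The sets `N_n = {y ∈ S0 | NetAt S0 y (1/(n+1))}` are closed (`net_closed`), increasing in `n`, and cover `S0` up to a null
set (`net_ae`); `volume S0 < ∞`, so `volume (S0 \ N_n) < ε/2` for some `n` (continuity of the measure along the
decreasing sequence `S0 \ N_n`, whose intersection is null). Let `G` be a measurable set of full measure contained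
in `{y | Good w y}` (`good_ae`). The measurable set `N_n ∩ G` contains a compact `S'` with
`volume ((N_n ∩ G) \ S') < ε/2` (inner regularity: `MeasurableSet.exists_isCompact_diff_lt`). -/

set_option autoImplicit false

namespace Pool.Agent.MP_4eca41.B

open Set MeasureTheory

theorem sel {w : ℝ × ℝ → ℝ} (hc : Continuous w) (hw : ∀ p, ConvexOn ℝ univ fun t => w (p, t))
    {S0 : Set (ℝ × ℝ)} (hS : IsCompact S0) {ε : ENNReal} (hε : 0 < ε) :
    ∃ S' : Set (ℝ × ℝ), IsCompact S' ∧ S' ⊆ S0 ∧ volume (S0 \ S') < ε ∧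
      (∃ r0 : ℝ, 0 < r0 ∧ ∀ y ∈ S', NetAt S0 y r0) ∧ ∀ y ∈ S', Good w y := by
  have hmono : ∀ {y : ℝ × ℝ} {a b : ℝ}, a ≤ b → NetAt S0 y b → NetAt S0 y a :=
    fun hab h r hr hra => h r hr (hra.trans hab)
  set N : ℕ → Set (ℝ × ℝ) := fun n => {y | y ∈ S0 ∧ NetAt S0 y (1 / ((n : ℝ) + 1))} with hN
  have hNm : ∀ n, MeasurableSet (N n) := fun n => (net_closed hS _).measurableSet
  have hfin : volume S0 ≠ ⊤ := hS.measure_lt_top.ne
  have hanti : Antitone fun n => S0 \ N n := by
    intro m n hmn y hy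
    refine ⟨hy.1, fun h => hy.2 ⟨h.1, hmono ?_ h.2⟩⟩
    have : (m : ℝ) ≤ n := by exact_mod_cast hmn
    exact one_div_le_one_div_of_le (by positivity) (by linarith)
  have hint : volume (⋂ n, (S0 \ N n)) = 0 := by
    have h1 := net_ae hS
    rw [ae_iff] at h1
    refine measure_mono_null ?_ h1
    intro y hy hcon
    rw [mem_iInter] at hy
    obtain ⟨n, hn⟩ := hcon (hy 0).1
    exact (hy n).2 ⟨(hy n).1, hn⟩
  have hlim := tendsto_measure_iInter_atTop (μ := volume) (s := fun n => S0 \ N n)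
    (fun n => (hS.isClosed.measurableSet.diff (hNm n)).nullMeasurableSet) hanti
    ⟨0, ((measure_mono sdiff_subset).trans_lt hS.measure_lt_top).ne⟩
  rw [hint] at hlim
  have hε2 : 0 < ε / 2 := ENNReal.half_pos hε.ne'
  obtain ⟨n, hn⟩ := (hlim.eventually_lt_const hε2).exists
  have hn' : volume (S0 \ N n) < ε / 2 := hn
  have hg := good_ae hc hw
  rw [ae_iff] at hg
  set B : Set (ℝ × ℝ) := toMeasurable volume {y | ¬ Good w y} with hB
  have hBm : MeasurableSet B := measurableSet_toMeasurable _ _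
  have hB0 : volume B = 0 := by rw [hB, measure_toMeasurable]; exact hg
  have hBs : {y | ¬ Good w y} ⊆ B := subset_toMeasurable _ _
  have hNf : volume (N n \ B) ≠ ⊤ :=
    ((measure_mono fun y hy => hy.1.1).trans_lt hS.measure_lt_top).ne
  obtain ⟨K, hK1, hK2, hK3⟩ :=
    ((hNm n).diff hBm).exists_isCompact_sdiff_lt hNf hε2.ne'
  refine ⟨K, hK2, fun y hy => (hK1 hy).1.1, ?_, ⟨1 / ((n : ℝ) + 1), by positivity,
    fun y hy => (hK1 hy).1.2⟩, fun y hy => ?_⟩
  · have hsub : S0 \ K ⊆ (S0 \ N n) ∪ (B ∪ ((N n \ B) \ K)) := by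
      intro y hy
      by_cases h1 : y ∈ N n
      · by_cases h2 : y ∈ B
        · exact Or.inr (Or.inl h2)
        · exact Or.inr (Or.inr ⟨⟨h1, h2⟩, hy.2⟩)
      · exact Or.inl ⟨hy.1, h1⟩
    calc volume (S0 \ K) ≤ volume ((S0 \ N n) ∪ (B ∪ ((N n \ B) \ K))) := measure_mono hsub
      _ ≤ volume (S0 \ N n) + (volume B + volume ((N n \ B) \ K)) :=
        (measure_union_le _ _).trans (add_le_add le_rfl (measure_union_le _ _))
      _ < ε / 2 + ε / 2 := by
        rw [hB0, zero_add]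
        exact ENNReal.add_lt_add hn' hK3
      _ = ε := ENNReal.add_halves ε
  · by_contra hcon
    exact (hK1 hy).2 (hBs hcon)

end Pool.Agent.MP_4eca41.B
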