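import Pool.Agent.Work.MP_4eca41_an.B.Leg

/-! # Module B/Tr: transfer of expansions under the partial Legendre transform (B2), quantitative form

PROOF. (`v = 0`) by convexity and the expansion, `f (x, t0) ≥ f z + p (x - x0)` for all `x` (`z = (x0, t0)`), so
`PL f (p, t0) = f z - p x0`. Let `v = (h, τ) ≠ 0`, `N = √(sq v)`,
`ψ ξ = f (x0 + ξ, t0 + τ) - (p + h) (x0 + ξ)` (convex in `ξ`, and `PL f (p + h, t0 + τ) = inf ψ`),
`Q ξ = f z - p x0 + s τ - h x0 - h ξ + (a ξ^2 + 2 b ξ τ + c τ^2)/2`. `|ψ ξ - Q ξ| ≤ ε' (ξ^2 + τ^2)` if `ξ^2 + τ^2 ≤ δ'^2`.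
The minimum of `Q` is at `ξ* = (h - b τ)/a`, `Q ξ = Q ξ* + a (ξ - ξ*)^2 / 2`, and `Q ξ*` is
`f z - p x0 - x0 h + s τ + (-(1/a) h^2 + 2 (b/a) h τ + (c - b^2/a) τ^2)/2`. `|ξ*| ≤ C1 N` with `C1 = (1 + A)·2/a0`.
For `N ≤ δ` (with `(C1 + 2) δ ≤ δ'`) and `|ξ - ξ*| ≤ N`: `|ψ - Q| ≤ ε' C2 N^2`, `C2 = (C1+1)^2 + 1`.
Upper bound: `inf ψ ≤ ψ ξ* ≤ Q ξ* + ε' C2 N^2`. Lower: for `|ξ - ξ*| = N`: `ψ ξ ≥ Q ξ* + a0 N^2/2 - ε' C2 N^2 > ψ ξ*` if
`ε' C2 < a0/8`; by convexity `ψ ξ ≥ ψ (ξ* ± N) ≥ Q ξ* - ε' C2 N^2` for `|ξ - ξ*| ≥ N`, and for `|ξ - ξ*| ≤ N`: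
`ψ ≥ Q - ε' C2 N^2 ≥ Q ξ* - ε' C2 N^2`. So choose `ε'` with `ε' C2 ≤ min ε (a0/8)`. -/

set_option autoImplicit false

namespace Pool.Agent.MP_4eca41.B

open Set MeasureTheory

theorem tr_out {ψ : ℝ → ℝ} (hψ : ConvexOn ℝ univ ψ) {x y ξ l : ℝ} (hl0 : 0 < l) (hl1 : l ≤ 1)
    (hy : y = (1 - l) * x + l * ξ) (h : ψ x ≤ ψ y) : ψ y ≤ ψ ξ := by
  have h1 := hψ.2 (mem_univ x) (mem_univ ξ) (sub_nonneg.2 hl1) hl0.le (by ring)
  simp only [smul_eq_mul] at h1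
  rw [← hy] at h1
  have h2 : (1 - l) * ψ x ≤ (1 - l) * ψ y := mul_le_mul_of_nonneg_left h (sub_nonneg.2 hl1)
  have h3 : l * ψ y ≤ l * ψ ξ := by linarith
  exact le_of_mul_le_mul_left h3 hl0

theorem tr_out' {ψ : ℝ → ℝ} (hψ : ConvexOn ℝ univ ψ) {x r c : ℝ} (hr : 0 < r)
    (h1 : ψ x ≤ ψ (x + r)) (h2 : ψ x ≤ ψ (x - r)) (hc1 : c ≤ ψ (x + r)) (hc2 : c ≤ ψ (x - r))
    {ξ : ℝ} (hξ : r ≤ |ξ - x|) : c ≤ ψ ξ := by
  rcases le_or_gt 0 (ξ - x) with h | h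
  · rw [abs_of_nonneg h] at hξ
    have hpos : 0 < ξ - x := lt_of_lt_of_le hr hξ
    refine hc1.trans (tr_out hψ (l := r / (ξ - x)) (by positivity) ((div_le_one hpos).2 hξ) ?_ h1)
    field_simp
    ring
  · rw [abs_of_neg h] at hξ
    have hpos : 0 < x - ξ := by linarith
    refine hc2.trans (tr_out hψ (l := r / (x - ξ)) (by positivity)
      ((div_le_one hpos).2 (by linarith)) ?_ h2)
    field_simp
    ring

theorem tr_core {f : ℝ × ℝ → ℝ} (hf : ConvexOn ℝ univ f) (hg : Gr f) {a0 A ε : ℝ} (ha0 : 0 < a0)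
    (hε : 0 < ε) :
    ∃ ε' : ℝ, 0 < ε' ∧ ∀ δ' : ℝ, 0 < δ' → ∃ δ : ℝ, 0 < δ ∧ ∀ (z : ℝ × ℝ) (p s a b c : ℝ),
      a0 ≤ a → |a| ≤ A → |b| ≤ A → |c| ≤ A →
      (∀ v : ℝ × ℝ, sq v ≤ δ' ^ 2 → |f (z + v) - f z -
        (p * v.1 + s * v.2 + (a * v.1 ^ 2 + 2 * b * v.1 * v.2 + c * v.2 ^ 2) / 2)| ≤
          ε' * sq v) →
      ∀ v : ℝ × ℝ, sq v ≤ δ ^ 2 → |PL f (p + v.1, z.2 + v.2) - (f z - p * z.1) -
        (-z.1 * v.1 + s * v.2 + (-1 / a * v.1 ^ 2 + 2 * (b / a) * v.1 * v.2 +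
          (c - b ^ 2 / a) * v.2 ^ 2) / 2)| ≤ ε * sq v := by
  set A1 : ℝ := |A| + 1 with hA1
  have hA1p : 0 < A1 := by positivity
  set C1 : ℝ := (1 + A1) / a0 with hC1
  have hC1p : 0 < C1 := by positivity
  set C2 : ℝ := (C1 + 1) ^ 2 + 1 with hC2
  have hC2p : 0 < C2 := by positivity
  have hC21 : 1 ≤ C2 := by nlinarith [sq_nonneg (C1 + 1)]
  refine ⟨min ε (a0 / 8) / C2, by positivity, fun δ' hδ' => ⟨δ' / (C1 + 2), by positivity, ?_⟩⟩
  set ε' : ℝ := min ε (a0 / 8) / C2 with hε'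
  have hε'p : 0 < ε' := by positivity
  have hε'C : ε' * C2 = min ε (a0 / 8) := by rw [hε']; field_simp
  have he1 : ε' * C2 ≤ ε := hε'C.le.trans (min_le_left _ _)
  have he2 : ε' * C2 ≤ a0 / 8 := hε'C.le.trans (min_le_right _ _)
  have he3 : ε' ≤ a0 / 8 := by nlinarith
  rintro ⟨x0, t0⟩ p s a b c ha hA hb hc H ⟨h, τ⟩ hv
  simp only at H hv ⊢
  have hapos : 0 < a := lt_of_lt_of_le ha0 ha
  obtain ⟨N, hN0, hN⟩ : ∃ N : ℝ, 0 ≤ N ∧ sq (h, τ) = N ^ 2 :=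
    ⟨Real.sqrt (sq (h, τ)), Real.sqrt_nonneg _,
      (Real.sq_sqrt (by unfold sq; positivity)).symm⟩
  have hN' : h ^ 2 + τ ^ 2 = N ^ 2 := hN
  have hhN : |h| ≤ N := by
    apply abs_le_of_sq_le_sq _ hN0; nlinarith [sq_nonneg τ]
  have hτN : |τ| ≤ N := by
    apply abs_le_of_sq_le_sq _ hN0; nlinarith [sq_nonneg h]
  have hNδ : (C1 + 2) * N ≤ δ' := by
    rw [hN] at hv
    have h1 : N ≤ δ' / (C1 + 2) := (sq_le_sq₀ hN0 (by positivity)).1 hv
    rw [le_div_iff₀ (by positivity)] at h1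
    linarith
  have hAA : A ≤ A1 := by rw [hA1]; linarith [le_abs_self A]
  -- the minimum point
  set ξs : ℝ := (h - b * τ) / a with hξs
  have hξsa : a * ξs = h - b * τ := by rw [hξs]; field_simp
  have hξsN : |ξs| ≤ C1 * N := by
    rw [hξs, abs_div, abs_of_pos hapos, div_le_iff₀ hapos]
    have h1 : |h - b * τ| ≤ |h| + |b| * |τ| := by
      calc |h - b * τ| ≤ |h| + |b * τ| := abs_sub _ _
        _ = |h| + |b| * |τ| := by rw [abs_mul]
    have h2 : |b| * |τ| ≤ A1 * N :=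
      mul_le_mul (hb.trans hAA) hτN (abs_nonneg _) hA1p.le
    have h3 : C1 * N * a0 = (1 + A1) * N := by rw [hC1]; field_simp
    have h4 : C1 * N * a0 ≤ C1 * N * a := mul_le_mul_of_nonneg_left ha (by positivity)
    nlinarith
  have hloc : ∀ ξ : ℝ, |ξ - ξs| ≤ N → ξ ^ 2 + τ ^ 2 ≤ C2 * N ^ 2 := by
    intro ξ hξ
    have h1 : |ξ| ≤ (C1 + 1) * N := by
      calc |ξ| = |(ξ - ξs) + ξs| := by ring_nf
        _ ≤ |ξ - ξs| + |ξs| := abs_add_le _ _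
        _ ≤ (C1 + 1) * N := by linarith
    have h2 : ξ ^ 2 ≤ ((C1 + 1) * N) ^ 2 := by
      rw [← sq_abs ξ]; exact pow_le_pow_left₀ (abs_nonneg _) h1 2
    have h3 : τ ^ 2 ≤ N ^ 2 := by nlinarith [sq_nonneg h]
    rw [hC2]; nlinarith
  have hC2N : C2 * N ^ 2 ≤ δ' ^ 2 := by
    have h1 : ((C1 + 2) * N) ^ 2 ≤ δ' ^ 2 := pow_le_pow_left₀ (by positivity) hNδ 2
    have h2 : C2 * N ^ 2 ≤ ((C1 + 2) * N) ^ 2 := by
      rw [mul_pow]
      apply mul_le_mul_of_nonneg_right _ (by positivity)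
      rw [hC2]; nlinarith
    exact h2.trans h1
  -- the function on the line
  set ψ : ℝ → ℝ := fun ξ => f (x0 + ξ, t0 + τ) - (p + h) * (x0 + ξ) with hψ
  have hψc : ConvexOn ℝ univ ψ := by
    refine ⟨convex_univ, fun u _ w _ k l hk hl hkl => ?_⟩
    have h1 := hf.2 (mem_univ (x0 + u, t0 + τ)) (mem_univ (x0 + w, t0 + τ)) hk hl hkl
    have h2 : k • (x0 + u, t0 + τ) + l • (x0 + w, t0 + τ) =
        (x0 + (k • u + l • w), t0 + τ) := by
      have hk' : k = 1 - l := by linarith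
      ext
      · simp [hk']; ring
      · simp [hk']; ring
    rw [h2] at h1
    simp only [hψ, smul_eq_mul] at h1 ⊢
    have h3 : (p + h) * (x0 + (k * u + l * w)) =
        k * ((p + h) * (x0 + u)) + l * ((p + h) * (x0 + w)) := by
      have hk' : k = 1 - l := by linarith
      subst hk'; ring
    linarith
  set Qs : ℝ := (f (x0, t0) - p * x0) + (-x0 * h + s * τ + (-1 / a * h ^ 2 +
    2 * (b / a) * h * τ + (c - b ^ 2 / a) * τ ^ 2) / 2) with hQs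
  have hQ : ∀ ξ : ℝ, ξ ^ 2 + τ ^ 2 ≤ δ' ^ 2 →
      |ψ ξ - (Qs + a * (ξ - ξs) ^ 2 / 2)| ≤ ε' * (ξ ^ 2 + τ ^ 2) := by
    intro ξ hξ
    have h1 := H (ξ, τ) hξ
    simp only [sq, Prod.mk_add_mk] at h1
    have h2 : ψ ξ - (Qs + a * (ξ - ξs) ^ 2 / 2) = f (x0 + ξ, t0 + τ) - f (x0, t0) -
        (p * ξ + s * τ + (a * ξ ^ 2 + 2 * b * ξ * τ + c * τ ^ 2) / 2) := by
      have e1 : a * (ξ - ξs) ^ 2 = a * ξ ^ 2 - 2 * ξ * (a * ξs) + (a * ξs) ^ 2 / a := by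
        field_simp
        ring
      rw [hξsa] at e1
      simp only [hψ, hQs, e1]
      field_simp
      ring
    rw [h2]; exact h1
  have hup : ψ ξs ≤ Qs + ε' * C2 * N ^ 2 := by
    have h0 := hloc ξs (by simpa using hN0)
    have h1 := hQ ξs (h0.trans hC2N)
    rw [abs_le] at h1
    have h2 : ε' * (ξs ^ 2 + τ ^ 2) ≤ ε' * (C2 * N ^ 2) := mul_le_mul_of_nonneg_left h0 hε'p.le
    have h3 := h1.2
    simp only [sub_self] at h3
    nlinarith
  have hlowin : ∀ ξ : ℝ, |ξ - ξs| ≤ N →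
      Qs + a * (ξ - ξs) ^ 2 / 2 - ε' * C2 * N ^ 2 ≤ ψ ξ := by
    intro ξ hξ
    have h0 := hloc ξ hξ
    have h1 := hQ ξ (h0.trans hC2N)
    rw [abs_le] at h1
    have h2 : ε' * (ξ ^ 2 + τ ^ 2) ≤ ε' * (C2 * N ^ 2) := mul_le_mul_of_nonneg_left h0 hε'p.le
    linarith [h1.1]
  have hlow : ∀ ξ : ℝ, Qs - ε' * C2 * N ^ 2 ≤ ψ ξ := by
    intro ξ
    rcases le_or_gt |ξ - ξs| N with hin | hout
    · have h1 := hlowin ξ hin
      have h2 : 0 ≤ a * (ξ - ξs) ^ 2 / 2 := by positivity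
      linarith
    · rcases hN0.eq_or_lt with hz | hpos
      · -- `v = 0`
        have hN00 : N = 0 := hz.symm
        have hτ0 : τ = 0 := by
          have := hτN; rw [hN00] at this; exact abs_eq_zero.1 (le_antisymm this (abs_nonneg _))
        have hξ0 : ξs = 0 := by
          have := hξsN; rw [hN00, mul_zero] at this
          exact abs_eq_zero.1 (le_antisymm this (abs_nonneg _))
        have key : ∀ η : ℝ, |η| ≤ δ' → Qs ≤ ψ η := by
          intro η hη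
          have h1 := hQ η (by
            rw [hτ0, ← sq_abs η]
            have := pow_le_pow_left₀ (abs_nonneg η) hη 2
            simpa using this)
          rw [abs_le, hτ0, hξ0] at h1
          have h2 := h1.1
          have h3 : ε' * η ^ 2 ≤ a / 2 * η ^ 2 :=
            mul_le_mul_of_nonneg_right (by linarith) (sq_nonneg η)
          simp only [sub_zero] at h2
          have e0 : (0 : ℝ) ^ 2 = 0 := by norm_num
          rw [e0, add_zero] at h2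
          linarith
        have hψ0 : ψ 0 ≤ Qs := by
          have := hup; rw [hN00, hξ0] at this; simpa using this
        rw [hN00]
        have e0 : ε' * C2 * (0 : ℝ) ^ 2 = 0 := by ring
        rw [e0, sub_zero]
        rcases le_or_gt |ξ| δ' with h1 | h1
        · exact key ξ h1
        · have k1 := key (0 + δ') (by rw [zero_add, abs_of_pos hδ'])
          have k2 := key (0 - δ') (by rw [zero_sub, abs_neg, abs_of_pos hδ'])
          exact tr_out' hψc hδ' (hψ0.trans k1) (hψ0.trans k2) k1 k2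
            (by rw [sub_zero]; exact h1.le)
      · have e1 : ξs + N - ξs = N := by ring
        have e2 : ξs - N - ξs = -N := by ring
        have h1 := hlowin (ξs + N) (by rw [e1, abs_of_pos hpos])
        have h2 := hlowin (ξs - N) (by rw [e2, abs_neg, abs_of_pos hpos])
        rw [e1] at h1
        rw [e2] at h2
        have h3 : a0 * N ^ 2 ≤ a * N ^ 2 := mul_le_mul_of_nonneg_right ha (sq_nonneg N)
        have h4 : ε' * C2 * N ^ 2 ≤ a0 / 8 * N ^ 2 :=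
          mul_le_mul_of_nonneg_right he2 (sq_nonneg N)
        have h5 : 0 ≤ a0 * N ^ 2 := by positivity
        have h6 : 0 ≤ ε' * C2 * N ^ 2 := by positivity
        have e3 : a * (-N) ^ 2 = a * N ^ 2 := by ring
        rw [e3] at h2
        exact tr_out' hψc hpos (by linarith) (by linarith) (by linarith) (by linarith) hout.le
  -- conclusion
  have hg1 : PL f (p + h, t0 + τ) ≤ ψ ξs := pl_le hg (p + h, t0 + τ) (x0 + ξs)
  have hg2 : Qs - ε' * C2 * N ^ 2 ≤ PL f (p + h, t0 + τ) := by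
    apply le_pl
    intro x
    have := hlow (x - x0)
    simp only [hψ, add_sub_cancel] at this
    exact this
  have h7 : ε' * C2 * N ^ 2 ≤ ε * N ^ 2 := mul_le_mul_of_nonneg_right he1 (sq_nonneg N)
  rw [hN]
  have h8 : PL f (p + h, t0 + τ) - (f (x0, t0) - p * x0) -
      (-x0 * h + s * τ + (-1 / a * h ^ 2 + 2 * (b / a) * h * τ + (c - b ^ 2 / a) * τ ^ 2) / 2) =
      PL f (p + h, t0 + τ) - Qs := by rw [hQs]; ring
  rw [h8, abs_le]
  constructor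
  · linarith
  · linarith

end Pool.Agent.MP_4eca41.B
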