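import Pool.Agent.Work.MP_4eca41_an.B.Tr

/-! # Module B/TrA: transfer of expansions at a point and uniformly on a compact set (B2)

`tr_uniq` PROOF. `g ξ = f (z.1 + ξ, z.2) - p (z.1 + ξ)` is convex, `g ξ ≥ g 0` for all `ξ`, `g ξ ≥ g 0 + (a/4) ξ^2` for small `ξ`
(expansion), so `g ξ > g 0` for all `ξ ≠ 0` (convexity: compare with a small multiple of `ξ`).
`tr_at`: `tr_core` with `a0 = a`, `A ≥ |a|, |b|, |c|`; value at `v = 0`.
`tr_unif` PROOF. `a0 = min J.a` on `K`, `A = ` bound of `|J.a|, |J.b|, |J.c|` on `K`. `Phi J z = Phi J z'` gives `z.2 = z'.2` and both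
`z.1`, `z'.1` are minimizers, `z = z'` (`tr_uniq`: `f z' - p z'.1 = PL f (p, t) = f z - p z.1`). Let `σ` be the inverse
of `Phi J` on the image (`Function.invFunOn`), `JW.p y = -(σ y).1`, `JW.s y = J.s (σ y)`, `JW.a y = -1 / J.a (σ y)` etc. `σ` is
continuous on the image (continuous bijection of compact sets: for a closed `F ⊆ K` the image is compact; or a
subsequence argument), so the coefficients are continuous. Expansions by `tr_core` (uniform `δ`). -/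

set_option autoImplicit false

namespace Pool.Agent.MP_4eca41.B

open Set MeasureTheory

theorem tr_uniq {f : ℝ × ℝ → ℝ} (hf : ConvexOn ℝ univ f) {z : ℝ × ℝ} {p s a b c : ℝ}
    (h : ExpAt f z p s a b c) (ha : 0 < a) {x : ℝ} (hx : f (x, z.2) - p * x ≤ f z - p * z.1) :
    x = z.1 := by
  by_contra hne
  set ξ : ℝ := x - z.1 with hξ
  have hξ0 : ξ ≠ 0 := sub_ne_zero.mpr hne
  have hξp : 0 < |ξ| := abs_pos.mpr hξ0
  obtain ⟨δ, hδ, hex⟩ := h (a / 4) (by positivity)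
  set l : ℝ := min 1 (δ / |ξ|) with hl
  have hl0 : 0 < l := lt_min one_pos (div_pos hδ hξp)
  have hl1 : l ≤ 1 := min_le_left _ _
  have hl2 : l * |ξ| ≤ δ := by
    have h1 : l ≤ δ / |ξ| := min_le_right _ _
    calc l * |ξ| ≤ δ / |ξ| * |ξ| := mul_le_mul_of_nonneg_right h1 hξp.le
      _ = δ := by field_simp
  have hsq : (l * ξ) ^ 2 ≤ δ ^ 2 := by
    have h1 : (l * ξ) ^ 2 = (l * |ξ|) ^ 2 := by
      rw [mul_pow, mul_pow, sq_abs]
    rw [h1]
    exact pow_le_pow_left₀ (by positivity) hl2 2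
  have h1 := hex (l * ξ, 0) (by
    unfold sq
    simpa using hsq)
  have h2 : sq (l * ξ, (0 : ℝ)) = (l * ξ) ^ 2 := by
    unfold sq
    simp
  rw [h2] at h1
  have h3 := (abs_le.mp h1).1
  -- convexity
  have h4 := hf.2 (mem_univ z) (mem_univ (x, z.2)) (by linarith : (0 : ℝ) ≤ 1 - l) hl0.le
    (by ring)
  have h5 : (1 - l) • z + l • (x, z.2) = z + (l * ξ, 0) := by
    apply Prod.ext
    · simp only [Prod.fst_add, Prod.smul_fst, smul_eq_mul]
      rw [hξ]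
      ring
    · simp only [Prod.snd_add, Prod.smul_snd, smul_eq_mul]
      ring
  rw [h5, smul_eq_mul, smul_eq_mul] at h4
  have h6 : l * f (x, z.2) ≤ l * (f z - p * z.1 + p * x) :=
    mul_le_mul_of_nonneg_left (by linarith) hl0.le
  have h7 : 0 < (l * ξ) ^ 2 := by positivity
  have h8 : l * (f z - p * z.1 + p * x) = l * f z + p * (l * ξ) := by
    rw [hξ]
    ring
  have h9 : 0 < a * (l * ξ) ^ 2 := by positivity
  simp only at h3
  nlinarith

private theorem tra_core {f : ℝ × ℝ → ℝ} (hf : ConvexOn ℝ univ f) (hg : Gr f) {z : ℝ × ℝ}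
    {p s a b c : ℝ} (h : ExpAt f z p s a b c) (ha : 0 < a) {ε : ℝ} (hε : 0 < ε) :
    ∃ δ : ℝ, 0 < δ ∧ ∀ v : ℝ × ℝ, sq v ≤ δ ^ 2 → |PL f (p + v.1, z.2 + v.2) - (f z - p * z.1) -
        (-z.1 * v.1 + s * v.2 + (-1 / a * v.1 ^ 2 + 2 * (b / a) * v.1 * v.2 +
          (c - b ^ 2 / a) * v.2 ^ 2) / 2)| ≤ ε * sq v := by
  obtain ⟨ε', hε', H⟩ := tr_core hf hg (a0 := a) (A := max |a| (max |b| |c|)) ha hε
  obtain ⟨δ', hδ', hex⟩ := h ε' hε'
  obtain ⟨δ, hδ, H2⟩ := H δ' hδ'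
  exact ⟨δ, hδ, H2 z p s a b c le_rfl (le_max_left _ _)
    ((le_max_left _ _).trans (le_max_right _ _)) ((le_max_right _ _).trans (le_max_right _ _)) hex⟩

private theorem tra_val {f : ℝ × ℝ → ℝ} (hf : ConvexOn ℝ univ f) (hg : Gr f) {z : ℝ × ℝ}
    {p s a b c : ℝ} (h : ExpAt f z p s a b c) (ha : 0 < a) : PL f (p, z.2) = f z - p * z.1 := by
  obtain ⟨δ, hδ, H⟩ := tra_core hf hg h ha one_pos
  have h1 := H (0, 0) (by
    unfold sq
    simp
    positivity)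
  unfold sq at h1
  simp only [add_zero, mul_zero, ne_eq, OfNat.ofNat_ne_zero, not_false_eq_true, zero_pow,
    zero_div, sub_zero] at h1
  have h2 := abs_nonpos_iff.mp h1
  linarith

theorem tr_at {f : ℝ × ℝ → ℝ} (hf : ConvexOn ℝ univ f) (hg : Gr f) {z : ℝ × ℝ} {p s a b c : ℝ}
    (h : ExpAt f z p s a b c) (ha : 0 < a) :
    ExpAt (PL f) (p, z.2) (-z.1) s (-1 / a) (b / a) (c - b ^ 2 / a) ∧
      PL f (p, z.2) = f z - p * z.1 := by
  have hv := tra_val hf hg h ha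
  refine ⟨?_, hv⟩
  intro ε hε
  obtain ⟨δ, hδ, H⟩ := tra_core hf hg h ha hε
  refine ⟨δ, hδ, ?_⟩
  intro v hvδ
  rw [hv]
  exact H v hvδ

theorem expAt_of_exp2 {f : ℝ × ℝ → ℝ} {K : Set (ℝ × ℝ)} {J : Jets} (hE : Exp2 f K J) {z : ℝ × ℝ}
    (hz : z ∈ K) : ExpAt f z (J.p z) (J.s z) (J.a z) (J.b z) (J.c z) := by
  intro ε hε
  obtain ⟨δ, hδ, H⟩ := hE.ex ε hε
  exact ⟨δ, hδ, fun v hv => H z hz v hv⟩

theorem tr_unif {f : ℝ × ℝ → ℝ} (hf : ConvexOn ℝ univ f) (hg : Gr f) {K : Set (ℝ × ℝ)} {J : Jets}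
    (hK : IsCompact K) (hE : Exp2 f K J) (ha : ∀ z ∈ K, 0 < J.a z) :
    InjOn (Phi J) K ∧ ContinuousOn (Phi J) K ∧ ∃ JW : Jets, Exp2 (PL f) (Phi J '' K) JW ∧
      ∀ z ∈ K, PL f (Phi J z) = f z - J.p z * z.1 ∧ JW.p (Phi J z) = -z.1 ∧
        JW.s (Phi J z) = J.s z ∧ JW.a (Phi J z) = -1 / J.a z ∧
        JW.b (Phi J z) = J.b z / J.a z ∧ JW.c (Phi J z) = J.c z - J.b z ^ 2 / J.a z := by
  have hval : ∀ z ∈ K, PL f (Phi J z) = f z - J.p z * z.1 := fun z hz =>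
    tra_val hf hg (expAt_of_exp2 hE hz) (ha z hz)
  have hinj : InjOn (Phi J) K := by
    intro z hz z' hz' he
    have he' : (J.p z, z.2) = (J.p z', z'.2) := he
    have e1 : J.p z = J.p z' := (Prod.mk.inj he').1
    have e2 : z.2 = z'.2 := (Prod.mk.inj he').2
    have h1 := hval z hz
    have h2 := hval z' hz'
    rw [← he, h1, ← e1] at h2
    have h3 : (z'.1, z.2) = z' := by rw [e2]
    have h4 : f (z'.1, z.2) - J.p z * z'.1 ≤ f z - J.p z * z.1 := by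
      rw [h3]
      exact h2.ge
    have h5 := tr_uniq hf (expAt_of_exp2 hE hz) (ha z hz) h4
    exact Prod.ext h5.symm e2
  have hcont : ContinuousOn (Phi J) K := hE.cp.prodMk continuousOn_snd
  refine ⟨hinj, hcont, ?_⟩
  set σ : ℝ × ℝ → ℝ × ℝ := Function.invFunOn (Phi J) K with hσ
  have hσl : ∀ z ∈ K, σ (Phi J z) = z := fun z hz => hinj.leftInvOn_invFunOn hz
  have hσm : MapsTo σ (Phi J '' K) K := by
    rintro _ ⟨z, hz, rfl⟩
    rw [hσl z hz]
    exact hz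
  have hσc : ContinuousOn σ (Phi J '' K) := by
    rw [continuousOn_iff_isClosed]
    intro t ht
    refine ⟨Phi J '' (K ∩ t), ?_, ?_⟩
    · exact ((hK.inter_right ht).image_of_continuousOn (hcont.mono inter_subset_left)).isClosed
    · ext y
      constructor
      · rintro ⟨h1, z, hz, rfl⟩
        refine ⟨⟨z, ⟨hz, ?_⟩, rfl⟩, ⟨z, hz, rfl⟩⟩
        have h2 : σ (Phi J z) ∈ t := h1
        rw [hσl z hz] at h2
        exact h2
      · rintro ⟨⟨z, ⟨hz, hzt⟩, rfl⟩, _⟩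
        refine ⟨?_, ⟨z, hz, rfl⟩⟩
        show σ (Phi J z) ∈ t
        rw [hσl z hz]
        exact hzt
  -- bounds
  obtain ⟨a0, ha0, ha0'⟩ : ∃ a0 : ℝ, 0 < a0 ∧ ∀ z ∈ K, a0 ≤ J.a z := by
    rcases K.eq_empty_or_nonempty with hKe | hKn
    · exact ⟨1, one_pos, fun z hz => by rw [hKe] at hz; exact absurd hz (notMem_empty z)⟩
    · obtain ⟨z0, hz0, hmin⟩ := hK.exists_isMinOn hKn hE.ca
      exact ⟨J.a z0, ha z0 hz0, fun z hz => hmin hz⟩
  obtain ⟨A1, hA1⟩ := hK.exists_bound_of_continuousOn hE.ca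
  obtain ⟨A2, hA2⟩ := hK.exists_bound_of_continuousOn hE.cb
  obtain ⟨A3, hA3⟩ := hK.exists_bound_of_continuousOn hE.cc
  have hne : ∀ y ∈ Phi J '' K, J.a (σ y) ≠ 0 := fun y hy => (ha _ (hσm hy)).ne'
  have cs : ContinuousOn (fun y => J.s (σ y)) (Phi J '' K) := hE.cs.comp hσc hσm
  have ca : ContinuousOn (fun y => J.a (σ y)) (Phi J '' K) := hE.ca.comp hσc hσm
  have cb : ContinuousOn (fun y => J.b (σ y)) (Phi J '' K) := hE.cb.comp hσc hσm
  have cc : ContinuousOn (fun y => J.c (σ y)) (Phi J '' K) := hE.cc.comp hσc hσm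
  have cσ1 : ContinuousOn (fun y => (σ y).1) (Phi J '' K) := continuous_fst.comp_continuousOn hσc
  refine ⟨⟨fun y => -(σ y).1, fun y => J.s (σ y), fun y => -1 / J.a (σ y),
    fun y => J.b (σ y) / J.a (σ y), fun y => J.c (σ y) - J.b (σ y) ^ 2 / J.a (σ y)⟩, ?_, ?_⟩
  · refine ⟨cσ1.neg, cs, continuousOn_const.div ca hne, cb.div ca hne,
      cc.sub ((cb.pow 2).div ca hne), ?_⟩
    intro ε hε
    obtain ⟨ε', hε', H⟩ := tr_core hf hg (a0 := a0) (A := max A1 (max A2 A3)) ha0 hε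
    obtain ⟨δ', hδ', hex⟩ := hE.ex ε' hε'
    obtain ⟨δ, hδ, H2⟩ := H δ' hδ'
    refine ⟨δ, hδ, ?_⟩
    rintro _ ⟨z, hz, rfl⟩ v hv
    have h1 := H2 z (J.p z) (J.s z) (J.a z) (J.b z) (J.c z) (ha0' z hz)
      ((hA1 z hz).trans (le_max_left _ _))
      ((hA2 z hz).trans ((le_max_left _ _).trans (le_max_right _ _)))
      ((hA3 z hz).trans ((le_max_right _ _).trans (le_max_right _ _)))
      (fun v hv => hex z hz v hv) v hv
    unfold Jets.q
    simp only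
    rw [hval z hz, hσl z hz]
    exact h1
  · intro z hz
    refine ⟨hval z hz, ?_, ?_, ?_, ?_, ?_⟩
    · show -(σ (Phi J z)).1 = -z.1
      rw [hσl z hz]
    · show J.s (σ (Phi J z)) = J.s z
      rw [hσl z hz]
    · show -1 / J.a (σ (Phi J z)) = -1 / J.a z
      rw [hσl z hz]
    · show J.b (σ (Phi J z)) / J.a (σ (Phi J z)) = J.b z / J.a z
      rw [hσl z hz]
    · show J.c (σ (Phi J z)) - J.b (σ (Phi J z)) ^ 2 / J.a (σ (Phi J z)) =
        J.c z - J.b z ^ 2 / J.a z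
      rw [hσl z hz]

end Pool.Agent.MP_4eca41.B
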