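import Pool.Agent.Work.MP_4eca41_an.B.AffA
import Pool.Agent.Work.MP_4eca41_an.B.TrA

/-! # Module B/Zer: tangent planes at rank zero points do not touch the good rank one points (B5)

PROOF. Let `T v = f y + p' (v.1 - y.1) + s' (v.2 - y.2)`; `T ≤ f` (convexity and expansion at `y`). Suppose `f z ≤ T z`, so
`f z = T z`. As `T ≤ f` touches at `z` and `f` has the expansion at `z`: `p' = p`, `s' = s`. `f = T` on the segment `[y, z]` (convexity).
Let `x0 = z.1`, `t0 = z.2`, `l t = T (x, t) - p x` (independent of `x`, affine), `w = PL f`; `w (p, t) ≥ l t` for all `t`,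
`w (p, t0) = f z - p x0 = l t0` (`tr_at`), `w (p, y.2) ≤ f y - p y.1 = l (y.2)`.
Case `y.2 = t0`: if `y.1 = x0` then `y = z` has two expansions, `a = 0`, contradiction; otherwise
`f (·, t0) = T (·, t0)` on the segment between `y.1` and `x0`, contradicting `a > 0` (expansion with `v = (ξ, 0)`, `ξ` small of
one sign).
Case `y.2 = t1 < t0`: by convexity `w (p, ·) = l` on `[t1, t0]`. `Good.endr` at `(p, t0)` with a rational `a1 ∈ (t1, t0)`:
`AffOn w p a1 b1` for some `b1 > t0`; so `w (p, ·) = l` on `[a1, b1]` (two affine functions equal on `[a1, t0]`). Let `x1` be a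
minimizer for `(p, b1)` (`pl_att`), `z1 = (x1, b1)`: `f z1 = l b1 + p x1 = T z1`. `f = T` on `[y, z1]`; the point of this
segment at height `t0`, `z2 = (x2, t0)`, has `f z2 - p x2 = l t0 = f z - p x0`, so `x2 = x0` (`tr_uniq`). So
`z = θ y + (1 - θ) z1` with `0 < θ < 1`. For small `ξ`: `f (z + (ξ, 0)) ≤ θ f (y + (ξ/θ, 0)) + (1 - θ) f z1 ≤ T (z + (ξ,0)) + κ ξ^2/θ`
for every `κ > 0` (rank zero expansion at `y`), while `f (z + (ξ, 0)) ≥ T (z + (ξ, 0)) + (a/4) ξ^2`: contradiction.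
Case `y.2 > t0`: symmetric with `Good.endl`. -/

set_option autoImplicit false

namespace Pool.Agent.MP_4eca41.B

open Set MeasureTheory

private theorem zr_small {A B : ℝ} (hA : 0 < A) (hB : 0 < B) : ∃ τ : ℝ, 0 < τ ∧ τ ≤ A ∧ τ ≤ B :=
  ⟨min A B, lt_min hA hB, min_le_left _ _, min_le_right _ _⟩

/-- expansion in the first direction -/
private theorem zr_h {f : ℝ × ℝ → ℝ} {z : ℝ × ℝ} {p s a b c : ℝ} (h : ExpAt f z p s a b c)
    {ε : ℝ} (hε : 0 < ε) : ∃ δ : ℝ, 0 < δ ∧ ∀ ξ : ℝ, |ξ| ≤ δ →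
      |f (z + (ξ, 0)) - f z - (p * ξ + a * ξ ^ 2 / 2)| ≤ ε * ξ ^ 2 := by
  obtain ⟨δ, hδ, h1⟩ := h ε hε
  refine ⟨δ, hδ, fun ξ hξ => ?_⟩
  have e1 : sq (ξ, (0 : ℝ)) = ξ ^ 2 := by simp [sq]
  have h2 := h1 (ξ, 0) (by rw [e1, ← sq_abs ξ]; exact pow_le_pow_left₀ (abs_nonneg _) hξ 2)
  rw [e1] at h2
  simp only at h2
  have e2 : p * ξ + s * 0 + (a * ξ ^ 2 + 2 * b * ξ * 0 + c * 0 ^ 2) / 2 =
      p * ξ + a * ξ ^ 2 / 2 := by ring
  rw [e2] at h2
  exact h2

/-- expansion in the second direction -/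
private theorem zr_v {f : ℝ × ℝ → ℝ} {z : ℝ × ℝ} {p s a b c : ℝ} (h : ExpAt f z p s a b c)
    {ε : ℝ} (hε : 0 < ε) : ∃ δ : ℝ, 0 < δ ∧ ∀ ξ : ℝ, |ξ| ≤ δ →
      |f (z + (0, ξ)) - f z - (s * ξ + c * ξ ^ 2 / 2)| ≤ ε * ξ ^ 2 := by
  obtain ⟨δ, hδ, h1⟩ := h ε hε
  refine ⟨δ, hδ, fun ξ hξ => ?_⟩
  have e1 : sq ((0 : ℝ), ξ) = ξ ^ 2 := by simp [sq]
  have h2 := h1 (0, ξ) (by rw [e1, ← sq_abs ξ]; exact pow_le_pow_left₀ (abs_nonneg _) hξ 2)
  rw [e1] at h2
  simp only at h2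
  have e2 : p * 0 + s * ξ + (a * 0 ^ 2 + 2 * b * 0 * ξ + c * ξ ^ 2) / 2 =
      s * ξ + c * ξ ^ 2 / 2 := by ring
  rw [e2] at h2
  exact h2

/-- a one variable comparison of slopes -/
private theorem zr_slope {g : ℝ → ℝ} {p q a ε δ : ℝ} (hε : 0 < ε) (hδ : 0 < δ)
    (h1 : ∀ ξ : ℝ, |ξ| ≤ δ → |g ξ - g 0 - (p * ξ + a * ξ ^ 2 / 2)| ≤ ε * ξ ^ 2)
    (h2 : ∀ ξ : ℝ, g 0 + q * ξ ≤ g ξ) : p = q := by
  by_contra hne
  have hd : 0 < |p - q| := abs_pos.2 (sub_ne_zero.2 hne)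
  have hk : 0 < |a| / 2 + ε := by positivity
  obtain ⟨τ, hτ, hτ1, hτ2⟩ := zr_small hδ (show 0 < |p - q| / (2 * (|a| / 2 + ε)) by positivity)
  have h3 := h1 τ (by rw [abs_of_pos hτ]; exact hτ1)
  have h4 := h1 (-τ) (by rw [abs_neg, abs_of_pos hτ]; exact hτ1)
  have h5 := h2 τ
  have h6 := h2 (-τ)
  rw [abs_le] at h3 h4
  have h7 : τ * (|a| / 2 + ε) ≤ |p - q| / 2 := by
    rw [le_div_iff₀ (by positivity)] at hτ2
    linarith
  have h8 : a ≤ |a| := le_abs_self a
  have h9 : a * τ ^ 2 ≤ |a| * τ ^ 2 := by nlinarith [sq_nonneg τ]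
  have h10 : (q - p) * τ ≤ (|a| / 2 + ε) * τ ^ 2 := by nlinarith [h3.2]
  have h11 : (p - q) * τ ≤ (|a| / 2 + ε) * τ ^ 2 := by nlinarith [h4.2]
  have h12 : |p - q| * τ ≤ (|a| / 2 + ε) * τ ^ 2 := by
    rcases abs_cases (p - q) with ⟨h, -⟩ | ⟨h, -⟩ <;> rw [h]
    · exact h11
    · linarith
  have h13 : |p - q| ≤ (|a| / 2 + ε) * τ := by
    have : |p - q| * τ ≤ ((|a| / 2 + ε) * τ) * τ := by nlinarith
    exact le_of_mul_le_mul_right this hτ
  linarith

/-- the plane at a point with an expansion is below the function -/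
private theorem zr_sub {f : ℝ × ℝ → ℝ} (hf : ConvexOn ℝ univ f) {y : ℝ × ℝ} {p s : ℝ}
    (h : ExpAt f y p s 0 0 0) (v : ℝ × ℝ) : f y + p * (v.1 - y.1) + s * (v.2 - y.2) ≤ f v := by
  by_contra hcon
  push Not at hcon
  set g := f y + p * (v.1 - y.1) + s * (v.2 - y.2) - f v with hg
  have hgp : 0 < g := by linarith
  obtain ⟨δ, hδ, h1⟩ := h 1 one_pos
  set u : ℝ × ℝ := v - y with hu
  set m := sq u with hm
  have hm0 : 0 ≤ m := by rw [hm, sq]; positivity
  obtain ⟨t, ht, ht1, ht2⟩ := zr_small (show 0 < min 1 (δ / (m + 1)) by positivity)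
    (show 0 < g / (2 * (m + 1)) by positivity)
  have ht3 : t ≤ 1 := ht1.trans (min_le_left _ _)
  have ht4 : t ≤ δ / (m + 1) := ht1.trans (min_le_right _ _)
  rw [le_div_iff₀ (by positivity)] at ht4 ht2
  have e1 : sq (t • u) = t ^ 2 * m := by
    simp only [hm, sq, Prod.smul_fst, Prod.smul_snd, smul_eq_mul]; ring
  have h2 := h1 (t • u) (by
    rw [e1]
    have h3 : t ^ 2 * m ≤ (t * (m + 1)) ^ 2 := by
      have : m ≤ (m + 1) ^ 2 := by nlinarith
      calc t ^ 2 * m ≤ t ^ 2 * (m + 1) ^ 2 := by gcongr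
        _ = (t * (m + 1)) ^ 2 := by ring
    exact h3.trans (pow_le_pow_left₀ (by positivity) ht4 2))
  rw [e1, abs_le] at h2
  have h3 := hf.2 (mem_univ y) (mem_univ v) (show 0 ≤ 1 - t by linarith) ht.le (by ring)
  have e2 : (1 - t) • y + t • v = y + t • u := by
    rw [hu, sub_smul, one_smul, smul_sub]; abel
  rw [e2] at h3
  simp only [smul_eq_mul] at h3
  have e3 : (t • u).1 = t * (v.1 - y.1) := by simp [hu]
  have e4 : (t • u).2 = t * (v.2 - y.2) := by simp [hu]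
  have h4 := h2.1
  rw [e3, e4] at h4
  have h5 : t * g ≤ t ^ 2 * m := by
    rw [hg]
    nlinarith
  have h6 : g ≤ t * m := by
    have : t * g ≤ t * (t * m) := by nlinarith
    exact le_of_mul_le_mul_left this ht
  nlinarith

/-- the final contradiction -/
private theorem zr_fin {f : ℝ × ℝ → ℝ} (hf : ConvexOn ℝ univ f) {z : ℝ × ℝ}
    {p s a b c : ℝ} (hz : ExpAt f z p s a b c) (ha : 0 < a) {y : ℝ × ℝ}
    (hy : ExpAt f y p s 0 0 0) (hyz : f z = f y + p * (z.1 - y.1) + s * (z.2 - y.2))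
    {z1 : ℝ × ℝ} (hz1 : f z1 = f y + p * (z1.1 - y.1) + s * (z1.2 - y.2)) {θ : ℝ}
    (h0 : 0 < θ) (h1 : θ < 1) (ht : z.2 = θ * y.2 + (1 - θ) * z1.2) : False := by
  have h1' : 0 ≤ 1 - θ := by linarith
  -- the point at the height of `z`
  have hx : θ * y.1 + (1 - θ) * z1.1 = z.1 := by
    apply tr_uniq hf hz ha
    have h3 := hf.2 (mem_univ y) (mem_univ z1) h0.le h1' (by ring)
    have e2 : θ • y + (1 - θ) • z1 = (θ * y.1 + (1 - θ) * z1.1, z.2) := by
      rw [ht]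
      ext <;> simp
    rw [e2] at h3
    simp only [smul_eq_mul] at h3
    rw [hz1] at h3
    rw [hyz]
    have e3 : θ * f y + (1 - θ) * (f y + p * (z1.1 - y.1) + s * (z1.2 - y.2)) -
        p * (θ * y.1 + (1 - θ) * z1.1) =
        f y + p * (z.1 - y.1) + s * (z.2 - y.2) - p * z.1 := by
      rw [ht]; ring
    linarith
  obtain ⟨δ1, hδ1, e1⟩ := zr_h hz (ε := a / 8) (by linarith)
  obtain ⟨δ2, hδ2, e2⟩ := zr_h hy (ε := a * θ / 8) (by positivity)
  obtain ⟨ξ, hξ, hξ1, hξ2⟩ := zr_small hδ1 (show 0 < θ * δ2 by positivity)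
  have e1' := e1 ξ (by rw [abs_of_pos hξ]; exact hξ1)
  have e2' := e2 (ξ / θ) (by
    rw [abs_of_pos (by positivity), div_le_iff₀ h0]
    linarith)
  rw [abs_le] at e1' e2'
  have h3 := hf.2 (mem_univ (y + (ξ / θ, 0))) (mem_univ z1) h0.le h1' (by ring)
  have e3 : θ • (y + (ξ / θ, 0)) + (1 - θ) • z1 = z + (ξ, 0) := by
    have : θ * (ξ / θ) = ξ := by field_simp
    ext
    · simp only [Prod.fst_add, Prod.smul_fst, smul_eq_mul]
      rw [mul_add, this, ← hx]; ring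
    · simp only [Prod.snd_add, Prod.smul_snd, smul_eq_mul]
      rw [ht]; ring
  rw [e3] at h3
  simp only [smul_eq_mul] at h3
  rw [hz1] at h3
  have h4 : θ * f (y + (ξ / θ, 0)) ≤ θ * (f y + (p * (ξ / θ) + 0 * (ξ / θ) ^ 2 / 2) +
      a * θ / 8 * (ξ / θ) ^ 2) := by
    apply mul_le_mul_of_nonneg_left _ h0.le
    linarith [e2'.2]
  have h5 : θ * (f y + (p * (ξ / θ) + 0 * (ξ / θ) ^ 2 / 2) + a * θ / 8 * (ξ / θ) ^ 2) =
      θ * f y + p * ξ + a / 8 * ξ ^ 2 := by
    field_simp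
    ring
  have h6 : θ * f y + (1 - θ) * (f y + p * (z1.1 - y.1) + s * (z1.2 - y.2)) = f z := by
    rw [hyz, ht, ← hx]; ring
  have h7 : 0 < a * ξ ^ 2 := by positivity
  nlinarith [e1'.1]

theorem no_zero {f : ℝ × ℝ → ℝ} (hf : ConvexOn ℝ univ f) (hg : Gr f) {z : ℝ × ℝ} {p s a b c : ℝ}
    (hz : ExpAt f z p s a b c) (ha : 0 < a) (hG : Good (PL f) (p, z.2)) {y : ℝ × ℝ} {p' s' : ℝ}
    (hy : ExpAt f y p' s' 0 0 0) : f y + p' * (z.1 - y.1) + s' * (z.2 - y.2) < f z := by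
  have hsub := zr_sub hf hy
  by_contra hcon
  push Not at hcon
  have hyz : f z = f y + p' * (z.1 - y.1) + s' * (z.2 - y.2) := le_antisymm hcon (hsub z)
  -- the slopes
  have hpp : p = p' := by
    obtain ⟨δ, hδ, h1⟩ := zr_h hz one_pos
    refine zr_slope (g := fun ξ => f (z + (ξ, 0))) one_pos hδ ?_ ?_ (a := a)
    · intro ξ hξ
      have h4 := h1 ξ hξ
      have h3 : z + ((0 : ℝ), (0 : ℝ)) = z := by ext <;> simp
      simp only [h3]
      exact h4
    · intro ξ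
      have h2 := hsub (z + (ξ, 0))
      simp only [Prod.fst_add, Prod.snd_add, add_zero] at h2
      have h3 : z + ((0 : ℝ), (0 : ℝ)) = z := by ext <;> simp
      simp only [h3]
      linarith
  have hss : s = s' := by
    obtain ⟨δ, hδ, h1⟩ := zr_v hz one_pos
    refine zr_slope (g := fun ξ => f (z + (0, ξ))) one_pos hδ ?_ ?_ (a := c)
    · intro ξ hξ
      have h4 := h1 ξ hξ
      have h3 : z + ((0 : ℝ), (0 : ℝ)) = z := by ext <;> simp
      simp only [h3]
      exact h4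
    · intro ξ
      have h2 := hsub (z + (0, ξ))
      simp only [Prod.fst_add, Prod.snd_add, add_zero] at h2
      have h3 : z + ((0 : ℝ), (0 : ℝ)) = z := by ext <;> simp
      simp only [h3]
      linarith
  subst hpp hss
  -- the Legendre side
  have hlw : ∀ t, f y - p * y.1 + s * (t - y.2) ≤ PL f (p, t) := by
    intro t
    refine le_pl fun x => ?_
    have := hsub (x, t)
    simp only at this ⊢
    linarith
  have hw0 : PL f (p, z.2) = f y - p * y.1 + s * (z.2 - y.2) := by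
    rw [(tr_at hf hg hz ha).2, hyz]; ring
  have hw1 : PL f (p, y.2) = f y - p * y.1 + s * (y.2 - y.2) := by
    apply le_antisymm _ (hlw y.2)
    have := pl_le hg (p, y.2) y.1
    simp only at this
    linarith
  have hbet : ∀ u v : ℝ, u < v → PL f (p, u) = f y - p * y.1 + s * (u - y.2) →
      PL f (p, v) = f y - p * y.1 + s * (v - y.2) → ∀ t, u ≤ t → t ≤ v →
      PL f (p, t) = f y - p * y.1 + s * (t - y.2) := by
    intro u v huv h1 h2 t h3 h4
    apply le_antisymm _ (hlw t)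
    have hd : 0 < v - u := by linarith
    have h5 := (pl_conv hf hg p).2 (mem_univ u) (mem_univ v)
      (show 0 ≤ (v - t) / (v - u) by apply div_nonneg <;> linarith)
      (show 0 ≤ (t - u) / (v - u) by apply div_nonneg <;> linarith)
      (by field_simp; ring)
    have e1 : ((v - t) / (v - u)) • u + ((t - u) / (v - u)) • v = t := by
      simp only [smul_eq_mul]
      field_simp
      ring
    rw [e1] at h5
    simp only [smul_eq_mul] at h5
    rw [h1, h2] at h5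
    refine h5.trans (le_of_eq ?_)
    field_simp
    ring
  -- from a second height to the contradiction
  have hfin : ∀ (τ θ : ℝ), 0 < θ → θ < 1 → z.2 = θ * y.2 + (1 - θ) * τ →
      PL f (p, τ) = f y - p * y.1 + s * (τ - y.2) → False := by
    intro τ θ h0 h1 ht hτ
    obtain ⟨x1, hx1⟩ := pl_att hf hg (p, τ)
    simp only at hx1
    refine zr_fin hf hz ha hy hyz (z1 := (x1, τ)) ?_ h0 h1 ht
    simp only
    linarith
  rcases lt_trichotomy y.2 z.2 with hlt | heq | hgt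
  · obtain ⟨q, hq1, hq2⟩ := exists_rat_btwn hlt
    have hall := hbet y.2 z.2 hlt hw1 hw0
    have hq := hall q hq1.le hq2.le
    obtain ⟨b1, hb1, hb2⟩ := hG.endr q hq2 (by
      intro t ht
      rw [hall t (hq1.le.trans ht.1) ht.2, hq, hw0]
      ring)
    have h3 := hb2 z.2 ⟨hq2.le, hb1.le⟩
    simp only at hb1 h3
    rw [hw0, hq] at h3
    have hb : PL f (p, b1) = f y - p * y.1 + s * (b1 - y.2) := by
      have h4 : (z.2 - q) * PL f (p, b1) = (z.2 - q) * (f y - p * y.1 + s * (b1 - y.2)) := by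
        linear_combination -h3
      have h5 : z.2 - (q : ℝ) ≠ 0 := by
        have : (0 : ℝ) < z.2 - (q : ℝ) := by linarith
        exact this.ne'
      exact mul_left_cancel₀ h5 h4
    refine hfin b1 ((b1 - z.2) / (b1 - y.2)) (by apply div_pos <;> linarith) ?_ ?_ hb
    · rw [div_lt_one (by linarith)]; linarith
    · have : b1 - y.2 ≠ 0 := by
        have : (0 : ℝ) < b1 - y.2 := by linarith
        exact this.ne'
      field_simp
      ring
  · -- the same height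
    have hx : y.1 = z.1 := by
      apply tr_uniq hf hz ha
      have : (y.1, z.2) = y := by rw [← heq]
      rw [this, hyz, heq]
      linarith
    have hyz' : y = z := Prod.ext hx heq
    subst hyz'
    obtain ⟨δ1, hδ1, e1⟩ := zr_h hz (ε := a / 8) (by linarith)
    obtain ⟨δ2, hδ2, e2⟩ := zr_h hy (ε := a / 8) (by linarith)
    obtain ⟨ξ, hξ, hξ1, hξ2⟩ := zr_small hδ1 hδ2
    have e1' := e1 ξ (by rw [abs_of_pos hξ]; exact hξ1)
    have e2' := e2 ξ (by rw [abs_of_pos hξ]; exact hξ2)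
    rw [abs_le] at e1' e2'
    have h7 : 0 < a * ξ ^ 2 := by positivity
    nlinarith [e1'.1, e2'.2]
  · obtain ⟨q, hq1, hq2⟩ := exists_rat_btwn hgt
    have hall := hbet z.2 y.2 hgt hw0 hw1
    have hq := hall q hq1.le hq2.le
    obtain ⟨a1, ha1, ha2⟩ := hG.endl q hq1 (by
      intro t ht
      rw [hall t ht.1 (ht.2.trans hq2.le), hq, hw0]
      ring)
    have h3 := ha2 z.2 ⟨ha1.le, hq1.le⟩
    simp only at ha1 h3
    rw [hw0, hq] at h3
    have hb : PL f (p, a1) = f y - p * y.1 + s * (a1 - y.2) := by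
      have h4 : ((q : ℝ) - z.2) * PL f (p, a1) =
          ((q : ℝ) - z.2) * (f y - p * y.1 + s * (a1 - y.2)) := by
        linear_combination -h3
      have h5 : (q : ℝ) - z.2 ≠ 0 := by
        have : (0 : ℝ) < (q : ℝ) - z.2 := by linarith
        exact this.ne'
      exact mul_left_cancel₀ h5 h4
    refine hfin a1 ((z.2 - a1) / (y.2 - a1)) (by apply div_pos <;> linarith) ?_ ?_ hb
    · rw [div_lt_one (by linarith)]; linarith
    · have : y.2 - a1 ≠ 0 := by
        have : (0 : ℝ) < y.2 - a1 := by linarith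
        exact this.ne'
      field_simp
      ring

end Pool.Agent.MP_4eca41.B
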